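import Pool.Agent.Lib.H36D.S1
import Pool.Agent.Lib.H36D.S3
import Pool.Agent.Lib.H36D.S4

/-!
# H80V, V4: the auxiliary function, with a bound for every coefficient
-/

namespace H80V

open H53M H36D PowerSeries Finset

theorem Hyp_mono {r : ℕ} {h : Fin r → PowerSeries ℚ} {C : ℝ} {κ : ℕ} {D : ℕ → ℕ}
    (H : Hyp h C κ D) {m n : ℕ} (hmn : m ≤ n) : D m ≤ D n := by
  have hdvd : ∀ k, D m ∣ D (m + k) := by
    intro k
    induction k with
    | zero => exact dvd_refl _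
    | succ k ih => exact ih.trans (H.dvd (m + k))
  have := hdvd (n - m)
  rw [Nat.add_sub_cancel' hmn] at this
  exact Nat.le_of_dvd (H.pos n) this

theorem aux_all (r : ℕ) (C : ℝ) (κ : ℕ) : ∃ C4 : ℝ, 1 ≤ C4 ∧
    ∀ (h : Fin r → PowerSeries ℚ) (D : ℕ → ℕ), Hyp h C κ D → ∀ J W : ℕ, 1 ≤ J → 1 ≤ W →
    ∀ T : ℕ, 1 ≤ T → 2 * T ≤ (Ix r J W).card → ∀ p : ℕ, p.Prime →
      ∃ x : (Fin r → ℕ) × ℕ → ℤ, (∃ t ∈ Ix r J W, ¬ (p : ℤ) ∣ x t) ∧
        (∀ n < T, coeff n (Ah h J W x) = 0) ∧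
        ∀ N ≥ T, ∃ z : ℤ, ((D N ^ J : ℕ) : ℚ) * coeff N (Ah h J W x) = z ∧
          (z ≠ 0 → Real.log |(z : ℝ)| ≤ 2 * Real.log ((Ix r J W).card) +
            2 * J * Real.log (D N) + 2 * (C4 * ((W : ℝ) + J) * Real.log (2 + (N : ℝ) / W) +
              C4 * J * Real.log 2)) := by
  obtain ⟨C4, hC4, hg⟩ := gc_bound r C κ
  refine ⟨C4, hC4, fun h D H J W hJ hW T hT hTU p hp => ?_⟩
  obtain ⟨U, hU⟩ : ∃ U, U = (Ix r J W).card := ⟨_, rfl⟩
  obtain ⟨B, hB⟩ : ∃ B : ℕ → ℝ, ∀ n, B n = C4 * ((W : ℝ) + J) * Real.log (2 + (n : ℝ) / W) +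
    C4 * J * Real.log 2 := ⟨_, fun _ => rfl⟩
  have hB0 : ∀ n, 0 ≤ B n := by
    intro n
    rw [hB]
    have h1 : 0 ≤ Real.log (2 + (n : ℝ) / W) := Real.log_nonneg (by
      have : 0 ≤ (n : ℝ) / W := by positivity
      linarith)
    have h2 : 0 ≤ Real.log 2 := Real.log_nonneg (by norm_num)
    positivity
  have hBm : ∀ m n, m ≤ n → B m ≤ B n := by
    intro m n hmn
    rw [hB, hB]
    have hmn' : (m : ℝ) ≤ n := by exact_mod_cast hmn
    have h1 : (m : ℝ) / W ≤ (n : ℝ) / W := by gcongr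
    have h2 : 0 ≤ (m : ℝ) / W := by positivity
    have h3 : Real.log (2 + (m : ℝ) / W) ≤ Real.log (2 + (n : ℝ) / W) :=
      Real.log_le_log (by linarith) (by linarith)
    have h4 : C4 * ((W : ℝ) + J) * Real.log (2 + (m : ℝ) / W) ≤
        C4 * ((W : ℝ) + J) * Real.log (2 + (n : ℝ) / W) :=
      mul_le_mul_of_nonneg_left h3 (by positivity)
    linarith
  have hgB : ∀ t ∈ Ix r J W, ∀ n, |((gc h W n 0 0 t : ℚ) : ℝ)| ≤ Real.exp (B n) := by
    intro t ht n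
    have h1 := hg h H.growth J W hJ hW t ht n 0 0
    rw [hB]
    rw [Nat.cast_zero, add_zero] at h1
    exact h1
  obtain ⟨x, hx0, hxb, hxT⟩ := siegel_fin (Ix r J W) (range T) (by rw [card_range]; exact hT)
    (by rw [card_range]; exact hTU) (fun n t => gc h W n 0 0 t) (D T ^ J)
    (Nat.pow_pos (H.pos T)) (Real.exp (B T)) (Real.one_le_exp (hB0 T))
    (by
      intro n hn t ht
      have hn' := Finset.mem_range.1 hn
      obtain ⟨z, hz⟩ := gc_int H J W t ht T n 0 0 hn'.le (Nat.zero_le _)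
      exact ⟨z, by push_cast; exact hz⟩)
    (by
      intro n hn t ht
      have hn' := Finset.mem_range.1 hn
      exact (hgB t ht n).trans (Real.exp_le_exp.2 (hBm n T hn'.le))) p hp
  have hcoef : ∀ n, coeff n (Ah h J W x) = ∑ t ∈ Ix r J W, (x t : ℚ) * gc h W n 0 0 t := by
    intro n
    rw [← gg_zero]
    rfl
  refine ⟨x, hx0, fun n hn => ?_, fun N hN => ?_⟩
  · rw [hcoef]
    exact hxT n (Finset.mem_range.2 hn)
  have hzt : ∀ t ∈ Ix r J W, ∃ z : ℤ, ((D N : ℚ)) ^ J * gc h W N 0 0 t = z :=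
    fun t ht => gc_int H J W t ht N N 0 0 le_rfl (Nat.zero_le _)
  choose! zt hzt' using hzt
  obtain ⟨z, hzdef⟩ : ∃ z : ℤ, z = ∑ t ∈ Ix r J W, x t * zt t := ⟨_, rfl⟩
  have hz : ((D N ^ J : ℕ) : ℚ) * coeff N (Ah h J W x) = z := by
    rw [hcoef, Finset.mul_sum, hzdef]
    push_cast
    refine Finset.sum_congr rfl fun t ht => ?_
    rw [← hzt' t ht]
    ring
  refine ⟨z, hz, fun hz0 => ?_⟩
  have hDN : (0 : ℝ) < (D N : ℝ) := by exact_mod_cast H.pos N
  have hDT : (0 : ℝ) < (D T : ℝ) := by exact_mod_cast H.pos T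
  have hUpos : (0 : ℝ) < (U : ℝ) := by
    have : 0 < U := by rw [hU]; omega
    exact_mod_cast this
  rw [← hU] at hxb ⊢
  have hzb : |(z : ℝ)| ≤ (U : ℝ) * (((U : ℝ) * (((D T ^ J : ℕ) : ℝ) *
      Real.exp (B T))) * (((D N : ℝ)) ^ J * Real.exp (B N))) := by
    have h1 : |(z : ℝ)| ≤ ∑ t ∈ Ix r J W, |(x t : ℝ)| * |(zt t : ℝ)| := by
      rw [hzdef]
      push_cast
      refine (Finset.abs_sum_le_sum_abs _ _).trans (le_of_eq ?_)
      exact Finset.sum_congr rfl fun t _ => abs_mul _ _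
    have h2 : ∀ t ∈ Ix r J W, |(x t : ℝ)| * |(zt t : ℝ)| ≤
        ((U : ℝ) * (((D T ^ J : ℕ) : ℝ) * Real.exp (B T))) *
        (((D N : ℝ)) ^ J * Real.exp (B N)) := by
      intro t ht
      have h3 : |(zt t : ℝ)| ≤ ((D N : ℝ)) ^ J * Real.exp (B N) := by
        have h4 : (zt t : ℝ) = (D N : ℝ) ^ J * ((gc h W N 0 0 t : ℚ) : ℝ) := by
          have := hzt' t ht
          have h5 : (((zt t : ℤ) : ℚ) : ℝ) =
              ((((D N : ℚ)) ^ J * gc h W N 0 0 t : ℚ) : ℝ) := by rw [this]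
          push_cast at h5
          exact h5
        rw [h4, abs_mul, abs_of_nonneg (by positivity : (0 : ℝ) ≤ (D N : ℝ) ^ J)]
        exact mul_le_mul_of_nonneg_left (hgB t ht N) (by positivity)
      exact mul_le_mul (hxb t) h3 (abs_nonneg _) (by positivity)
    refine h1.trans ((Finset.sum_le_sum h2).trans (le_of_eq ?_))
    rw [Finset.sum_const, nsmul_eq_mul, ← hU]
  have hzpos : 0 < |(z : ℝ)| := by
    rw [abs_pos]
    exact_mod_cast hz0
  have h1 := Real.log_le_log hzpos hzb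
  have hDTp : (0 : ℝ) < ((D T ^ J : ℕ) : ℝ) := by
    push_cast
    positivity
  have hDNp : (0 : ℝ) < (D N : ℝ) ^ J := by positivity
  rw [Real.log_mul hUpos.ne' (by positivity), Real.log_mul (by positivity) (by positivity),
    Real.log_mul hUpos.ne' (by positivity), Real.log_mul hDTp.ne' (Real.exp_pos _).ne',
    Real.log_mul hDNp.ne' (Real.exp_pos _).ne', Real.log_exp, Real.log_exp, Real.log_pow] at h1
  have h2 := hBm T N hN
  have h3 : Real.log ((D T ^ J : ℕ) : ℝ) = J * Real.log (D T) := by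
    push_cast
    rw [Real.log_pow]
  have h4 : Real.log (D T) ≤ Real.log (D N) :=
    Real.log_le_log hDT (by exact_mod_cast Hyp_mono H hN)
  have h6 : (J : ℝ) * Real.log (D T) ≤ (J : ℝ) * Real.log (D N) :=
    mul_le_mul_of_nonneg_left h4 (by positivity)
  rw [h3] at h1
  rw [← hB]
  linarith

end H80V
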