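import Pool.Agent.Lib.H53M.SG

/-!
# H80V, V5: numerics
-/

namespace H80V

open H53M Finset Filter

theorem theta_low : ∃ Y0 : ℕ, ∀ Y ≥ Y0,
    (Y : ℝ) / 2 ≤ ∑ p ∈ (range (Y + 1)).filter Nat.Prime, Real.log p := by
  obtain ⟨y0, hy2, hy⟩ := SG_log (1 / 20) (by norm_num)
  obtain ⟨Y0, hY0⟩ := exists_nat_ge y0
  refine ⟨max Y0 2, fun Y hY => ?_⟩
  have hY1 : y0 ≤ (Y : ℝ) := hY0.trans (by exact_mod_cast (le_max_left _ _).trans hY)
  have hY2 : (2 : ℝ) ≤ Y := by exact_mod_cast (le_max_right _ _).trans hY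
  have h1 := Chebyshev.theta_ge Y
  have h2 : Chebyshev.theta Y = ∑ p ∈ (range (Y + 1)).filter Nat.Prime, Real.log p := by
    rw [Chebyshev.theta_eq_sum_primesLE_log]
    rfl
  rw [← h2]
  have h3 := hy Y hY1
  have h4 : Real.log ((Y : ℝ) + 1) ≤ Real.log (2 + (Y : ℝ)) :=
    Real.log_le_log (by linarith) (by linarith)
  have h5 : Real.log (Y : ℝ) ≤ Real.log (2 + (Y : ℝ)) :=
    Real.log_le_log (by linarith) (by linarith)
  have hs0 : 0 ≤ Real.sqrt Y := Real.sqrt_nonneg _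
  have hs1 : 1 ≤ Real.sqrt Y := by
    rw [Real.one_le_sqrt]
    linarith
  have hs2 : Real.sqrt Y * Real.sqrt Y = Y := Real.mul_self_sqrt (by linarith)
  have h6 : Real.sqrt Y ≤ Y := by nlinarith
  have h7 : 2 * Real.sqrt Y * Real.log Y ≤ 2 * Real.sqrt Y * (1 / 20 * Real.sqrt Y) :=
    mul_le_mul_of_nonneg_left (h5.trans h3) (by positivity)
  have h8 := Real.log_two_gt_d9
  have h9 : 2 * Real.sqrt Y * (1 / 20 * Real.sqrt Y) = 1 / 10 * (Real.sqrt Y * Real.sqrt Y) := by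
    ring
  rw [hs2] at h9
  nlinarith

theorem theta_exc (E : ℕ → Prop) [DecidablePred E] (Y X : ℕ) (hY : 1 ≤ Y) (hYX : Y ≤ X) :
    ∑ p ∈ (range (Y + 1)).filter Nat.Prime, Real.log p -
      (((range (X + 1)).filter (fun p => p.Prime ∧ E p)).card : ℝ) * Real.log X ≤
    ∑ p ∈ (range (Y + 1)).filter (fun p => p.Prime ∧ ¬ E p), Real.log p := by
  classical
  have h1 : ∑ p ∈ (range (Y + 1)).filter Nat.Prime, Real.log p =
      ∑ p ∈ (range (Y + 1)).filter (fun p => p.Prime ∧ ¬ E p), Real.log p +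
        ∑ p ∈ (range (Y + 1)).filter (fun p => p.Prime ∧ E p), Real.log p := by
    rw [← Finset.sum_union]
    · congr 1
      ext p
      simp only [mem_union, mem_filter, mem_range]
      tauto
    · rw [Finset.disjoint_left]
      intro p hp hp'
      exact (Finset.mem_filter.1 hp).2.2 (Finset.mem_filter.1 hp').2.2
  have hX : (1 : ℝ) ≤ X := by exact_mod_cast hY.trans hYX
  have h2 : ∑ p ∈ (range (Y + 1)).filter (fun p => p.Prime ∧ E p), Real.log p ≤
      (((range (X + 1)).filter (fun p => p.Prime ∧ E p)).card : ℝ) * Real.log X := by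
    have h3 : ∑ p ∈ (range (Y + 1)).filter (fun p => p.Prime ∧ E p), Real.log (p : ℝ) ≤
        ((range (Y + 1)).filter (fun p => p.Prime ∧ E p)).card • Real.log X := by
      refine Finset.sum_le_card_nsmul _ _ _ fun p hp => ?_
      obtain ⟨h4, h5⟩ := Finset.mem_filter.1 hp
      have h6 := Finset.mem_range.1 h4
      have h7 : (0 : ℝ) < p := by exact_mod_cast h5.1.pos
      apply Real.log_le_log h7
      have : p ≤ X := by omega
      exact_mod_cast this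
    rw [nsmul_eq_mul] at h3
    refine h3.trans (mul_le_mul_of_nonneg_right ?_ (Real.log_nonneg hX))
    have h8 : (range (Y + 1)).filter (fun p => p.Prime ∧ E p) ⊆
        (range (X + 1)).filter (fun p => p.Prime ∧ E p) := by
      intro p hp
      rw [mem_filter, mem_range] at hp ⊢
      exact ⟨by omega, hp.2⟩
    exact_mod_cast Finset.card_le_card h8
  linarith

/-- The choice of `J` and `W`. -/
theorem num (A μ s : ℕ) (hA : 1 ≤ A) (C4 c : ℝ) (hC4 : 1 ≤ C4) (hc : 0 < c) (Y0 : ℕ) :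
    ∃ J : ℕ, 1 ≤ J ∧ ∀ K : ℕ, ∃ δ : ℝ, 0 < δ ∧ ∃ W0 : ℕ, ∀ W ≥ W0, 1 ≤ W ∧ ∀ U N : ℕ,
      ((J : ℝ) + 1) ^ 2 / 2 * ((W : ℝ) + 1) ≤ U → U ≤ (J + 1) ^ 3 * (W + 1) →
      U / 2 ≤ N → N < K * (W + 1) →
      Y0 ≤ (N - μ * W - s - 1) / (A * J) ∧ 1 ≤ (N - μ * W - s - 1) / (A * J) ∧
      1 ≤ U / 2 ∧
      ∀ e : ℝ, e ≤ δ * ((K * (W + 1) : ℕ) : ℝ) →
        2 * Real.log U + (2 * J + 1) * e + 2 * (C4 * ((W : ℝ) + J) *
          Real.log (2 + (N : ℝ) / W) + C4 * J * Real.log 2) <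
          c * (((N - μ * W - s - 1) / (A * J) : ℕ) : ℝ) := by
  have hAr : (1 : ℝ) ≤ A := by exact_mod_cast hA
  obtain ⟨c', hc'⟩ : ∃ c', c' = c / (32 * A * C4) := ⟨_, rfl⟩
  have hc'0 : 0 < c' := by rw [hc']; positivity
  obtain ⟨y0, hy2, hy⟩ := SG_log c' hc'0
  obtain ⟨J, hJ⟩ := exists_nat_ge (4 * y0 + 8 * ((μ : ℝ) + 1) + 64 * A / c + 1)
  have hJ1' : (1 : ℝ) ≤ J := by
    have h1 : 0 ≤ 64 * (A : ℝ) / c := by positivity
    have h2 : 0 ≤ (μ : ℝ) := Nat.cast_nonneg _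
    linarith
  have hJ1 : 1 ≤ J := by exact_mod_cast hJ1'
  refine ⟨J, hJ1, fun K => ?_⟩
  refine ⟨1 / (4 * (2 * J + 1) * (K + 1)), by positivity, ?_⟩
  -- the conditions on W
  have e1 := SG_W (J : ℝ) (1 / 2) (by norm_num)
  have e2 : ∀ᶠ W : ℕ in atTop, 2 * C4 * J * Real.log 2 + 6 * Real.log (J + 1) ≤ (1 / 4) * (W : ℝ) := by
    have h1 : ∀ᶠ W : ℕ in atTop,
        (2 * C4 * J * Real.log 2 + 6 * Real.log (J + 1)) / (1 / 4) ≤ (W : ℝ) :=
      tendsto_natCast_atTop_atTop.eventually_ge_atTop _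
    filter_upwards [h1] with W hW
    rw [div_le_iff₀ (by norm_num)] at hW
    linarith
  have e3 : ∀ᶠ W : ℕ in atTop, s + 1 + A * J + J + 4 * A * (Y0 + 1) + 2 ≤ W :=
    eventually_ge_atTop _
  obtain ⟨W0, hW0⟩ := eventually_atTop.1 (e1.and (e2.and e3))
  refine ⟨W0, fun W hW => ?_⟩
  obtain ⟨a1, a2, a3⟩ := hW0 W hW
  have hW1 : 1 ≤ W := by omega
  refine ⟨hW1, fun U N hU1 hU2 hUN hNK => ?_⟩
  have hWr : (1 : ℝ) ≤ W := by exact_mod_cast hW1
  have hW0r : (0 : ℝ) < W := by linarith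
  have a3' : (s : ℝ) + 1 + A * J + J + 4 * A * (Y0 + 1) + 2 ≤ W := by exact_mod_cast a3
  -- N is large
  have hTU : ((U : ℝ) - 1) / 2 ≤ (U / 2 : ℕ) := by
    have h1 : U ≤ 2 * (U / 2) + 1 := by omega
    have h2 : (U : ℝ) ≤ 2 * ((U / 2 : ℕ) : ℝ) + 1 := by exact_mod_cast h1
    linarith
  have hUN' : ((U / 2 : ℕ) : ℝ) ≤ N := by exact_mod_cast hUN
  have hNJ : (J : ℝ) ^ 2 / 4 * W ≤ N := by
    have h1 : (J : ℝ) ^ 2 * W + 4 ≤ ((J : ℝ) + 1) ^ 2 * ((W : ℝ) + 1) := by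
      nlinarith [mul_nonneg (by linarith : (0 : ℝ) ≤ J) hW0r.le]
    nlinarith
  obtain ⟨ν, hν⟩ : ∃ ν : ℝ, ν = (N : ℝ) / W := ⟨_, rfl⟩
  have hNν : (N : ℝ) = ν * W := by rw [hν]; field_simp
  have hνJ : (J : ℝ) ^ 2 / 4 ≤ ν := by
    rw [hν, le_div_iff₀ hW0r]
    exact hNJ
  have hμr : (0 : ℝ) ≤ μ := Nat.cast_nonneg _
  have hAc : 0 ≤ 64 * (A : ℝ) / c := by positivity
  have hν1 : y0 ≤ ν := by nlinarith
  have hν2 : 2 * ((μ : ℝ) + 1) ≤ ν := by nlinarith
  have hνp : (1 : ℝ) ≤ ν := by linarith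
  obtain ⟨q, hq⟩ : ∃ q : ℝ, q = Real.sqrt ν := ⟨_, rfl⟩
  have hq0 : 0 ≤ q := by rw [hq]; exact Real.sqrt_nonneg _
  have hqq : q * q = ν := by rw [hq]; exact Real.mul_self_sqrt (by linarith)
  have hqJ : (J : ℝ) ≤ 2 * q := by
    by_contra h1
    push Not at h1
    nlinarith
  have hq1 : 1 ≤ q := by nlinarith
  have hqc : 32 * (A : ℝ) / c ≤ q := by
    have h1 : 64 * (A : ℝ) / c ≤ J := by linarith
    have h2 : 64 * (A : ℝ) / c = 2 * (32 * (A : ℝ) / c) := by ring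
    linarith
  -- Y
  obtain ⟨Y, hY⟩ : ∃ Y, Y = (N - μ * W - s - 1) / (A * J) := ⟨_, rfl⟩
  rw [← hY]
  have hle : μ * W + s + 1 ≤ N := by
    have h1 : ((μ : ℝ) * W + s + 1) ≤ N := by
      rw [hNν]
      nlinarith [mul_nonneg (by positivity : (0 : ℝ) ≤ (A : ℝ) * J) (by norm_num : (0 : ℝ) ≤ 1)]
    exact_mod_cast h1
  have hAJ : 0 < A * J := Nat.mul_pos (by omega) (by omega)
  have hYlow : (N : ℝ) - μ * W - s - 1 - A * J ≤ A * J * Y := by
    have h3 := Nat.div_add_mod (N - μ * W - s - 1) (A * J)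
    have h4 := Nat.mod_lt (N - μ * W - s - 1) hAJ
    have h5 : N - μ * W - s - 1 ≤ A * J * Y + A * J := by
      rw [hY]
      omega
    have h7 : N - μ * W - s - 1 = N - (μ * W + s + 1) := by omega
    rw [h7] at h5
    have h6 : ((N - (μ * W + s + 1) : ℕ) : ℝ) ≤ ((A * J * Y + A * J : ℕ) : ℝ) := by
      exact_mod_cast h5
    push_cast [Nat.cast_sub hle] at h6
    linarith
  have hYN : ν * W / 2 ≤ A * J * Y := by
    have h1 : (N : ℝ) - (μ + 1) * W ≤ A * J * Y := by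
      have : (0 : ℝ) ≤ 4 * A * (Y0 + 1) := by positivity
      linarith
    rw [hNν] at h1
    nlinarith
  have hYq : q * W ≤ 4 * A * Y := by
    have h1 : (A : ℝ) * J * Y ≤ A * (2 * q) * Y := by
      have : (0 : ℝ) ≤ Y := Nat.cast_nonneg _
      have h2 : (A : ℝ) * J ≤ A * (2 * q) := mul_le_mul_of_nonneg_left hqJ (by linarith)
      exact mul_le_mul_of_nonneg_right h2 this
    have h2 : q * (q * W) ≤ q * (4 * A * Y) := by
      have : q * (q * W) = ν * W := by rw [← hqq]; ring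
      nlinarith
    exact le_of_mul_le_mul_left h2 (by linarith)
  have hY0Y : Y0 + 1 ≤ Y := by
    have h1 : 4 * (A : ℝ) * (Y0 + 1) ≤ 4 * A * Y := by
      have h2 : (W : ℝ) ≤ q * W := by nlinarith
      have h3 : (0 : ℝ) ≤ (A : ℝ) * J := by positivity
      have h4 : (0 : ℝ) ≤ s := Nat.cast_nonneg _
      linarith
    have h2 : ((Y0 : ℝ) + 1) ≤ Y := le_of_mul_le_mul_left h1 (by positivity)
    exact_mod_cast h2
  refine ⟨by omega, by omega, ?_, fun e he => ?_⟩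
  · have h1 : (2 : ℝ) ≤ U := by
      have h2 : (4 : ℝ) ≤ ((J : ℝ) + 1) ^ 2 := by nlinarith
      nlinarith
    have h2 : 2 ≤ U := by exact_mod_cast h1
    omega
  -- the final inequality
  have b1 : 2 * Real.log U ≤ (3 / 4) * (W : ℝ) := by
    have hUpos : (0 : ℝ) < U := by
      have : (0 : ℝ) < ((J : ℝ) + 1) ^ 2 / 2 * ((W : ℝ) + 1) := by positivity
      linarith
    have h1 : (U : ℝ) ≤ ((J : ℝ) + 1) ^ 3 * ((W : ℝ) + 1) := by exact_mod_cast hU2
    have h2 := Real.log_le_log hUpos h1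
    rw [Real.log_mul (by positivity) (by positivity), Real.log_pow] at h2
    push_cast at h2
    have h3 : 0 ≤ Real.log ((J : ℝ) + 1) := Real.log_nonneg (by linarith)
    have h4 : 0 ≤ 2 * C4 * J * Real.log 2 := by
      have : 0 ≤ Real.log 2 := Real.log_nonneg (by norm_num)
      positivity
    linarith
  have b2 : 2 * (C4 * J * Real.log 2) ≤ (1 / 4) * (W : ℝ) := by
    have h3 : 0 ≤ Real.log ((J : ℝ) + 1) := Real.log_nonneg (by linarith)
    linarith
  have b3 : (2 * (J : ℝ) + 1) * e ≤ (1 / 2) * W := by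
    have h1 : (2 * (J : ℝ) + 1) * e ≤ (2 * (J : ℝ) + 1) *
        (1 / (4 * (2 * J + 1) * (K + 1)) * ((K * (W + 1) : ℕ) : ℝ)) :=
      mul_le_mul_of_nonneg_left he (by positivity)
    refine h1.trans ?_
    push_cast
    have h2 : (2 * (J : ℝ) + 1) * (1 / (4 * (2 * J + 1) * (K + 1)) * ((K : ℝ) * ((W : ℝ) + 1))) =
        (K : ℝ) / (K + 1) * (((W : ℝ) + 1) / 4) := by
      field_simp
    rw [h2]
    have h3 : (K : ℝ) / (K + 1) ≤ 1 := by
      rw [div_le_one (by positivity)]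
      linarith
    have h4 : (0 : ℝ) ≤ (K : ℝ) / (K + 1) := by positivity
    nlinarith
  have b4 : 2 * (C4 * ((W : ℝ) + J) * Real.log (2 + (N : ℝ) / W)) ≤ c / (8 * A) * q * W := by
    have h1 := hy ν hν1
    rw [← hq] at h1
    rw [← hν]
    have hJW : (J : ℝ) ≤ W := by
      have h3 : (0 : ℝ) ≤ (A : ℝ) * J := by positivity
      have h4 : (0 : ℝ) ≤ s := Nat.cast_nonneg _
      have : (0 : ℝ) ≤ 4 * A * (Y0 + 1) := by positivity
      linarith
    have h2 : C4 * ((W : ℝ) + J) ≤ C4 * (2 * W) :=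
      mul_le_mul_of_nonneg_left (by linarith) (by linarith)
    have h3 : 0 ≤ Real.log (2 + ν) := Real.log_nonneg (by linarith)
    calc 2 * (C4 * ((W : ℝ) + J) * Real.log (2 + ν))
        ≤ 2 * (C4 * (2 * W) * Real.log (2 + ν)) := by
          have := mul_le_mul_of_nonneg_right h2 h3
          linarith
      _ ≤ 2 * (C4 * (2 * W) * (c' * q)) := by
          have := mul_le_mul_of_nonneg_left h1 (by positivity : (0 : ℝ) ≤ C4 * (2 * W))
          linarith
      _ = c / (8 * A) * q * W := by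
          rw [hc']
          field_simp
          ring
  have b5 : c / (4 * A) * q * W ≤ c * Y := by
    have h1 : c / (4 * A) * (q * W) ≤ c / (4 * A) * (4 * A * Y) :=
      mul_le_mul_of_nonneg_left hYq (by positivity)
    have h2 : c / (4 * A) * (4 * A * Y) = c * Y := by field_simp
    linarith
  have b6 : 4 * (W : ℝ) ≤ c / (8 * A) * q * W := by
    have h1 : c / (8 * A) * (32 * (A : ℝ) / c) ≤ c / (8 * A) * q :=
      mul_le_mul_of_nonneg_left hqc (by positivity)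
    have h2 : c / (8 * A) * (32 * (A : ℝ) / c) = 4 := by
      field_simp
      norm_num
    have h3 : (4 : ℝ) ≤ c / (8 * A) * q := by linarith
    nlinarith
  have b7 : c / (4 * A) * q * W = c / (8 * A) * q * W + c / (8 * A) * q * W := by
    field_simp
    ring
  linarith

end H80V
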