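import Pool.Agent.Lib.H80V.V1
import Pool.Agent.Lib.H80V.V4
import Pool.Agent.Lib.H80V.V5
import Pool.Agent.Lib.H53M.SF
import Pool.Agent.Lib.H6D.Defs

/-!
# H80V, V6: the core of V'
-/

namespace H80V

open H53M H94M H36D PowerSeries Finset

/-- If all `h_s` are modular modulo the primes outside of `Exc` and there is a zero estimate of fixed degree, the
exceptional primes have positive lower density. -/
theorem core (v μ s : ℕ) (h : Fin 3 → PowerSeries ℚ) (b : ℕ → ℤ) (Exc : ℕ → Prop)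
    [DecidablePred Exc] (hD : H6D.Dat 3 v μ s h b Exc)
    (hb : ∀ p, p.Prime → ¬ Exc p → (p : ℤ) ∣ b p)
    (hZ : ∀ J : ℕ, ∃ l K : ℕ, l.Prime ∧ ∀ (W : ℕ) (x : (Fin 3 → ℕ) × ℕ → ℤ),
      (∃ t ∈ Ix 3 J W, ¬ (l : ℤ) ∣ x t) → ∃ n < K * (W + 1), coeff n (Ah h J W x) ≠ 0) :
    ∃ δ : ℝ, 0 < δ ∧ ∃ X₀ : ℕ, ∀ X ≥ X₀, δ * (X : ℝ) ≤
      (((range (X + 1)).filter (fun p => p.Prime ∧ Exc p)).card : ℝ) * Real.log X := by
  classical
  obtain ⟨C, κ, hC⟩ := hD.growth
  obtain ⟨C4, hC4, haux⟩ := aux_all 3 C κ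
  obtain ⟨Y0, hY0⟩ := theta_low
  obtain ⟨A, hA⟩ : ∃ A, A = μ * (v + 1) := ⟨_, rfl⟩
  have hA1 : 1 ≤ A := by
    rw [hA]
    exact Nat.mul_pos hD.mu_pos (Nat.succ_pos v)
  obtain ⟨J, hJ1, hnum⟩ := num A μ s hA1 C4 (1 / 2) hC4 (by norm_num) Y0
  obtain ⟨l, K, hl, hK⟩ := hZ J
  obtain ⟨δ, hδ, W0, hW0⟩ := hnum K
  -- the denominators
  obtain ⟨D, hDdef⟩ : ∃ D : ℕ → ℕ, D = DG Exc 1 1 := ⟨_, rfl⟩
  have hHyp : Hyp h C κ D := by
    rw [hDdef]
    refine ⟨hC, hD.zero, DG_pos Exc 1 1, DG_dvd Exc 1 1, fun σ n => ?_⟩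
    refine DG_den Exc 1 1 n _ (fun p hp => ?_) (fun p hp hE => hD.int σ n p hp hE)
    have h1 := hD.den σ n p hp
    rw [one_mul, pow_one]
    exact h1
  -- one scale
  have hone : ∀ W ≥ W0, 1 ≤ K ∧ δ * ((K * (W + 1) : ℕ) : ℝ) <
      (((range (K * (W + 1) + 1)).filter (fun p => p.Prime ∧ Exc p)).card : ℝ) *
        Real.log ((K * (W + 1) : ℕ) : ℝ) := by
    intro W hW
    obtain ⟨hW1, hWN⟩ := hW0 W hW
    obtain ⟨U, hU⟩ : ∃ U, U = (Ix 3 J W).card := ⟨_, rfl⟩
    have hUge : ((J : ℝ) + 1) ^ 2 / 2 * ((W : ℝ) + 1) ≤ U := by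
      have h1 := card_Ix_ge 3 J W (by norm_num)
      rw [← hU] at h1
      have h2 : ((3 - 1).factorial : ℝ) = 2 := by norm_num [Nat.factorial]
      rw [h2] at h1
      exact h1
    have hUle : U ≤ (J + 1) ^ 3 * (W + 1) := by
      rw [hU]
      exact card_Ix_le 3 J W
    have hT1 : 1 ≤ U / 2 := by
      have hWr : (1 : ℝ) ≤ W := by exact_mod_cast hW1
      have hJr : (1 : ℝ) ≤ J := by exact_mod_cast hJ1
      have h1 : (2 : ℝ) ≤ U := by
        have h2 : (4 : ℝ) ≤ ((J : ℝ) + 1) ^ 2 := by nlinarith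
        nlinarith
      have h2 : 2 ≤ U := by exact_mod_cast h1
      omega
    obtain ⟨x, hx0, hxT, hxN⟩ := haux h D hHyp J W hJ1 hW1 (U / 2) hT1 (by omega) l hl
    have hex : ∃ n, coeff n (Ah h J W x) ≠ 0 := by
      obtain ⟨n, _, hn⟩ := hK W x hx0
      exact ⟨n, hn⟩
    obtain ⟨N, hN⟩ : ∃ N, N = Nat.find hex := ⟨_, rfl⟩
    have hNne : coeff N (Ah h J W x) ≠ 0 := by
      rw [hN]
      exact Nat.find_spec hex
    have hNlt : ∀ n, n < N → coeff n (Ah h J W x) = 0 := by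
      intro n hn
      rw [hN] at hn
      by_contra h1
      exact Nat.find_min hex hn h1
    have hNK : N < K * (W + 1) := by
      obtain ⟨n, hn1, hn2⟩ := hK W x hx0
      have h1 : N ≤ n := by
        rw [hN]
        exact Nat.find_min' hex hn2
      omega
    have hTN : U / 2 ≤ N := by
      by_contra hlt
      push Not at hlt
      exact hNne (hxT N hlt)
    have hK1 : 1 ≤ K := by
      by_contra h1
      have h2 : K = 0 := by omega
      rw [h2, Nat.zero_mul] at hNK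
      omega
    obtain ⟨c1, c2, _, c3⟩ := hWN U N hUge hUle hTN hNK
    obtain ⟨Y, hY⟩ : ∃ Y, Y = (N - μ * W - s - 1) / (A * J) := ⟨_, rfl⟩
    rw [← hY] at c1 c2 c3
    obtain ⟨X, hX⟩ : ∃ X, X = K * (W + 1) := ⟨_, rfl⟩
    rw [← hX] at c3 hNK ⊢
    refine ⟨hK1, ?_⟩
    by_contra hcon
    push Not at hcon
    have c4 := c3 _ hcon
    obtain ⟨e, he⟩ : ∃ e : ℝ, e = (((range (X + 1)).filter (fun p => p.Prime ∧ Exc p)).card : ℝ) *
        Real.log (X : ℝ) := ⟨_, rfl⟩
    rw [← he] at c4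
    have hAJ : 0 < A * J := Nat.mul_pos (by omega) (by omega)
    have hYAJ : Y * (A * J) ≤ N - μ * W - s - 1 := by
      rw [hY]
      exact Nat.div_mul_le_self _ _
    have hYN : Y ≤ N := by
      have h1 : Y ≤ Y * (A * J) := Nat.le_mul_of_pos_right _ hAJ
      omega
    have hX1 : 1 ≤ X := by omega
    have hXr : (1 : ℝ) ≤ X := by exact_mod_cast hX1
    -- the logarithm of the denominator
    have hDN : Real.log (D N) ≤ e := by
      have h1 := log_DG_le Exc 1 1 N le_rfl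
      rw [← hDdef] at h1
      refine h1.trans ?_
      rw [he]
      have h2 : 1 * (N + 1) ^ 1 ≤ X := by
        rw [one_mul, pow_one]
        omega
      have h3 : (range (1 * (N + 1) ^ 1 + 1)).filter (fun p => p.Prime ∧ Exc p) ⊆
          (range (X + 1)).filter (fun p => p.Prime ∧ Exc p) := by
        intro p hp
        rw [mem_filter, mem_range] at hp ⊢
        exact ⟨by omega, hp.2⟩
      have h4 : (0 : ℝ) < ((1 * (N + 1) ^ 1 : ℕ) : ℝ) := by
        push_cast
        positivity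
      have h5 : Real.log ((1 * (N + 1) ^ 1 : ℕ) : ℝ) ≤ Real.log X :=
        Real.log_le_log h4 (by exact_mod_cast h2)
      have h6 : 0 ≤ Real.log ((1 * (N + 1) ^ 1 : ℕ) : ℝ) := by
        apply Real.log_nonneg
        push_cast
        linarith [(Nat.cast_nonneg N : (0 : ℝ) ≤ N)]
      exact mul_le_mul (by exact_mod_cast Finset.card_le_card h3) h5 h6 (Nat.cast_nonneg _)
    obtain ⟨z, hz1, hz2⟩ := hxN N hTN
    have hz0 : z ≠ 0 := by
      intro h0
      rw [h0] at hz1
      have h1 : ((D N ^ J : ℕ) : ℚ) ≠ 0 := by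
        have : D N ^ J ≠ 0 := (Nat.pow_pos (hHyp.pos N)).ne'
        exact_mod_cast this
      rcases mul_eq_zero.1 (hz1.trans (by norm_num)) with h2 | h2
      · exact h1 h2
      · exact hNne h2
    have hz3 := hz2 hz0
    rw [← hU] at hz3
    have hlow : ∑ p ∈ (range (Y + 1)).filter (fun p => p.Prime ∧ ¬ Exc p), Real.log (p : ℝ) ≤
        Real.log |(z : ℝ)| := by
      refine theta_le_log (fun p => p.Prime ∧ ¬ Exc p) (fun p hp => hp.1) Y z hz0 ?_
      intro p hp hpY
      haveI : Fact p.Prime := ⟨hp.1⟩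
      obtain ⟨M, hM, hrM⟩ := hD.fam p hp.2
      have hPI : ∀ i, PI p (h i) := fun i n => hD.int i n p hp.1 hp.2
      have hbp : ((b p : ℤ) : ZMod p) = 0 :=
        (ZMod.intCast_zmod_eq_zero_iff_dvd _ _).2 (hb p hp.1 hp.2)
      refine Ah_dvd p hM (p * v + (p - 1)) J W h hPI (fun i => ?_) x N hNlt ?_ (D N ^ J) z hz1
      · have h1 := hrM i
        rw [hbp, zero_smul, sub_zero] at h1
        exact h1
      · have h1 : μ * (12 * W + J * (p * v + (p - 1))) / 12 ≤ μ * W + A * J * p := by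
          have h2 : p * v + (p - 1) ≤ (v + 1) * p := by
            have : (v + 1) * p = p * v + p := by ring
            omega
          have h3 : μ * (12 * W + J * (p * v + (p - 1))) ≤ 12 * (μ * W + A * J * p) := by
            have h4 : μ * (J * (p * v + (p - 1))) ≤ μ * (J * ((v + 1) * p)) :=
              Nat.mul_le_mul_left _ (Nat.mul_le_mul_left _ h2)
            have h5 : μ * (J * ((v + 1) * p)) = A * J * p := by
              rw [hA]
              ring
            calc μ * (12 * W + J * (p * v + (p - 1))) =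
                12 * (μ * W) + μ * (J * (p * v + (p - 1))) := by ring
              _ ≤ 12 * (μ * W) + A * J * p := by omega
              _ ≤ 12 * (μ * W + A * J * p) := by
                rw [Nat.mul_add]
                omega
          omega
        have h2 : A * J * p ≤ A * J * Y := Nat.mul_le_mul_left _ hpY
        have h3 : A * J * Y = Y * (A * J) := Nat.mul_comm _ _
        have h4 : 1 ≤ Y * (A * J) := Nat.mul_pos (by omega) hAJ
        omega
    have hth := hY0 Y c1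
    have hex2 := theta_exc Exc Y X (by omega) (by omega)
    rw [← he] at hex2
    have hJ0 : (0 : ℝ) ≤ J := Nat.cast_nonneg _
    have h7 : 2 * (J : ℝ) * Real.log (D N) ≤ 2 * (J : ℝ) * e :=
      mul_le_mul_of_nonneg_left hDN (by positivity)
    linarith
  -- all scales
  obtain ⟨hK1, _⟩ := hone W0 le_rfl
  refine ⟨δ / 2, by positivity, 2 * K * (W0 + 2), fun X hX => ?_⟩
  obtain ⟨W, hW⟩ : ∃ W, W + 1 = X / K := by
    have h1 : 1 ≤ X / K := by
      rw [Nat.le_div_iff_mul_le (by omega)]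
      have : 2 * K * (W0 + 2) = K * (W0 + 2) + K * (W0 + 2) := by ring
      have h2 : K ≤ K * (W0 + 2) := Nat.le_mul_of_pos_right _ (by omega)
      omega
    exact ⟨X / K - 1, by omega⟩
  have hWW : W0 ≤ W := by
    have h1 : W0 + 2 ≤ X / K := by
      rw [Nat.le_div_iff_mul_le (by omega), Nat.mul_comm]
      have : 2 * K * (W0 + 2) = K * (W0 + 2) + K * (W0 + 2) := by ring
      omega
    omega
  have hKX : K * (W + 1) ≤ X := by
    rw [hW]
    exact Nat.mul_div_le X K
  have hKX2 : X ≤ 2 * (K * (W + 1)) := by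
    have h1 := Nat.div_add_mod X K
    have h2 := Nat.mod_lt X (show K > 0 by omega)
    have h3 : K * 1 ≤ K * (W + 1) := Nat.mul_le_mul_left _ (by omega)
    rw [← hW] at h1
    omega
  obtain ⟨_, h2⟩ := hone W hWW
  have h3 : (range (K * (W + 1) + 1)).filter (fun p => p.Prime ∧ Exc p) ⊆
      (range (X + 1)).filter (fun p => p.Prime ∧ Exc p) := by
    intro p hp
    rw [mem_filter, mem_range] at hp ⊢
    exact ⟨by omega, hp.2⟩
  have h4 : 1 ≤ K * (W + 1) := Nat.mul_pos (by omega) (by omega)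
  have h4r : (1 : ℝ) ≤ ((K * (W + 1) : ℕ) : ℝ) := by exact_mod_cast h4
  have h5 : Real.log ((K * (W + 1) : ℕ) : ℝ) ≤ Real.log (X : ℝ) :=
    Real.log_le_log (by linarith) (by exact_mod_cast hKX)
  have h6 : (((range (K * (W + 1) + 1)).filter (fun p => p.Prime ∧ Exc p)).card : ℝ) *
        Real.log ((K * (W + 1) : ℕ) : ℝ) ≤
      (((range (X + 1)).filter (fun p => p.Prime ∧ Exc p)).card : ℝ) * Real.log X :=
    mul_le_mul (by exact_mod_cast Finset.card_le_card h3) h5 (Real.log_nonneg h4r)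
      (Nat.cast_nonneg _)
  have h7 : (X : ℝ) ≤ 2 * ((K * (W + 1) : ℕ) : ℝ) := by exact_mod_cast hKX2
  nlinarith

end H80V
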