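import Pool.Agent.Lib.H80V.V3
import Pool.Agent.Lib.H80V.V6

/-!
# H80V, V7: V' (case II of Theorem D)

If `b_p = a(p)/p` is divisible by `p` for all `p ∉ Exc`, the exceptional primes have positive lower density.
-/

namespace H80V

open H53M H94M H36D PowerSeries Finset

theorem caseII (k v μ s : ℕ) (hk : 2 ≤ k) (a : ℕ → ℤ) (h1 : a 1 = 1)
    (hord : ∀ B : ℕ, ∃ l : ℕ, B < l ∧ l.Prime ∧ HeckeAt k a l ∧ ¬ (l : ℤ) ∣ a l)
    (b : ℕ → ℤ) (Exc : ℕ → Prop) [DecidablePred Exc]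
    (hD : H6D.Dat 3 v μ s (fun σ : Fin 3 => H6D.VV (σ + 1) (H6V.hq a)) b Exc)
    (hb : ∀ p, p.Prime → ¬ Exc p → (p : ℤ) ∣ b p) :
    ∃ δ : ℝ, 0 < δ ∧ ∃ X₀ : ℕ, ∀ X ≥ X₀, δ * (X : ℝ) ≤
      (((range (X + 1)).filter (fun p => p.Prime ∧ Exc p)).card : ℝ) * Real.log X :=
  core v μ s _ b Exc hD hb (zero_est a k hk h1 hord hD.ind)

end H80V
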