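import Pool.Agent.Lib.H80V.Z1
import Pool.Agent.Lib.H94M.TS

/-!
# H80V, V1: the auxiliary function modulo a prime at which all `h_s` are modular
-/

namespace H80V

open H53M H94M H36D PowerSeries Finset

theorem Hm_mem {p μ s : ℕ} {M : ℕ → Submodule (ZMod p) (PowerSeries (ZMod p))}
    (hM : MFam p μ s M) {r : ℕ} (w : ℕ) (f : Fin r → PowerSeries (ZMod p))
    (hf : ∀ i, f i ∈ M w) (al : Fin r → ℕ) : Hm f al ∈ M ((∑ i, al i) * w) := by
  have key : ∀ A : Finset (Fin r), (∏ i ∈ A, f i ^ al i) ∈ M ((∑ i ∈ A, al i) * w) := by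
    intro A
    induction A using Finset.induction_on with
    | empty =>
      rw [Finset.prod_empty, Finset.sum_empty, Nat.zero_mul]
      exact hM.le 0 (one_mem_MP_zero p)
    | insert a A ha ih =>
      rw [Finset.prod_insert ha, Finset.sum_insert ha, add_mul]
      exact hM.mul _ _ _ _ (hM.pow (hf a) (al a)) ih
  exact key Finset.univ

theorem Lv_mem (p W i : ℕ) (hi : i ≤ W) : redZ p (Lv W i) ∈ MP p (12 * W) := by
  have h1 := MP_mono p (3 * (W - i)) 0 i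
  rw [pow_zero, mul_one] at h1
  have e : 4 * (3 * (W - i)) + 6 * 0 + 12 * i = 12 * W := by omega
  rw [e] at h1
  exact h1

theorem Ah_mem (p : ℕ) [Fact p.Prime] {μ s : ℕ}
    {M : ℕ → Submodule (ZMod p) (PowerSeries (ZMod p))} (hM : MFam p μ s M) (w : ℕ) {r : ℕ}
    (J W : ℕ) (h : Fin r → PowerSeries ℚ) (hI : ∀ i, PI p (h i)) (hr : ∀ i, redQ p (h i) ∈ M w)
    (x : (Fin r → ℕ) × ℕ → ℤ) :
    PI p (Ah h J W x) ∧ redQ p (Ah h J W x) ∈ M (12 * W + J * w) := by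
  have hterm : ∀ t ∈ Ix r J W, PI p ((x t : ℚ) • (toQ (Lv W t.2) * Hm h t.1)) := fun t _ =>
    PI_smul (pi_int (x t)) (PI_mul (PI_toQ _) (PI_Hm hI t.1).1)
  unfold Ah
  refine ⟨PI_sum _ _ hterm, ?_⟩
  rw [kredQ_sum _ _ hterm]
  refine Submodule.sum_mem _ fun t ht => ?_
  rw [kredQ_smul (pi_int _) (PI_mul (PI_toQ _) (PI_Hm hI t.1).1),
    kredQ_mul (PI_toQ _) (PI_Hm hI t.1).1, kredQ_toQ, (PI_Hm hI t.1).2]
  refine Submodule.smul_mem _ _ ?_
  unfold Ix at ht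
  obtain ⟨h1, h2⟩ := Finset.mem_product.1 ht
  have h3 : ∑ i, t.1 i = J := (Finset.mem_piAntidiag.1 h1).1
  have h4 : t.2 ≤ W := by
    have := Finset.mem_range.1 h2
    omega
  have h5 := Hm_mem hM w (fun i => redQ p (h i)) hr t.1
  rw [h3] at h5
  exact hM.mul _ _ _ _ (hM.le _ (Lv_mem p W t.2 h4)) h5

theorem Ah_dvd (p : ℕ) [Fact p.Prime] {μ s : ℕ}
    {M : ℕ → Submodule (ZMod p) (PowerSeries (ZMod p))} (hM : MFam p μ s M) (w : ℕ) {r : ℕ}
    (J W : ℕ) (h : Fin r → PowerSeries ℚ) (hI : ∀ i, PI p (h i)) (hr : ∀ i, redQ p (h i) ∈ M w)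
    (x : (Fin r → ℕ) × ℕ → ℤ) (N : ℕ) (h0 : ∀ n, n < N → coeff n (Ah h J W x) = 0)
    (hN : μ * (12 * W + J * w) / 12 + s < N) (E : ℕ) (z : ℤ)
    (hz : (E : ℚ) * coeff N (Ah h J W x) = z) : (p : ℤ) ∣ z := by
  obtain ⟨hPI, hmem⟩ := Ah_mem p hM w J W h hI hr x
  have hzero : redQ p (Ah h J W x) = 0 := by
    refine hM.sturm _ _ hmem fun n hn => ?_
    rw [redQ, coeff_mk, h0 n (by omega)]
    simp
  have hc : ((coeff N (Ah h J W x) : ℚ) : ZMod p) = 0 := by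
    have := congrArg (coeff N) hzero
    rwa [redQ, coeff_mk, map_zero] at this
  have hcast : ((z : ℤ) : ZMod p) = 0 := by
    have e : (((z : ℤ) : ℚ) : ZMod p) = ((z : ℤ) : ZMod p) := Rat.cast_intCast z
    rw [← e, ← hz, cast_mul_pi (pi_nat _) (hPI N), hc, mul_zero]
  exact (ZMod.intCast_zmod_eq_zero_iff_dvd z p).1 hcast

end H80V
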