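import Pool.Agent.Lib.H80V.Z2
import Pool.Agent.Lib.H6V.Defs

/-!
# H80V, V2: linear independence modulo large primes, the ordinary primes of a newform, the zero estimate
-/

namespace H80V

open H53M H36D PowerSeries Finset

/-- Finitely many sequences which are linearly independent over `ℚ` have truncations which are linearly
independent over `ℚ`. -/
theorem indep_trunc {ι : Type*} [Fintype ι] (f : ι → ℕ → ℚ)
    (hf : ∀ c : ι → ℚ, (∀ n, ∑ i, c i * f i n = 0) → c = 0) :
    ∃ m : ℕ, ∀ c : ι → ℚ, (∀ n < m, ∑ i, c i * f i n = 0) → c = 0 := by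
  classical
  obtain ⟨K, hK⟩ : ∃ K : ℕ → Submodule ℚ (ι → ℚ), ∀ m c, c ∈ K m ↔ ∀ n < m, ∑ i, c i * f i n = 0 := by
    refine ⟨fun m =>
      { carrier := {c | ∀ n < m, ∑ i, c i * f i n = 0}
        add_mem' := ?_
        zero_mem' := ?_
        smul_mem' := ?_ }, fun m c => Iff.rfl⟩
    · intro c c' hc hc' n hn
      have h1 := hc n hn
      have h2 := hc' n hn
      simp only [Pi.add_apply, add_mul, Finset.sum_add_distrib]
      rw [h1, h2, add_zero]
    · intro n hn
      simp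
    · intro r c hc n hn
      have h1 := hc n hn
      simp only [Pi.smul_apply, smul_eq_mul, mul_assoc]
      rw [← Finset.mul_sum, h1, mul_zero]
  have hanti : Antitone K := by
    intro m m' hmm c hc
    rw [hK] at hc ⊢
    exact fun n hn => hc n (lt_of_lt_of_le hn hmm)
  obtain ⟨m, hm⟩ := IsArtinian.monotone_stabilizes (R := ℚ) (M := ι → ℚ)
    ⟨fun n => OrderDual.toDual (K n), fun a b hab => OrderDual.toDual_le_toDual.2 (hanti hab)⟩
  refine ⟨m, fun c hc => hf c fun n => ?_⟩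
  have h1 : c ∈ K m := (hK m c).2 hc
  have h2 : c ∈ K (m + n + 1) := by
    have h3 := hm (m + n + 1) (by omega)
    have h4 : K m = K (m + n + 1) := OrderDual.toDual.injective h3
    rw [← h4]
    exact h1
  exact (hK _ c).1 h2 n (by omega)

/-- Linear independence modulo all large primes. -/
theorem indep_mod {ι : Type*} [Fintype ι] [DecidableEq ι] (f : ι → ℕ → ℚ)
    (hf : ∀ c : ι → ℚ, (∀ n, ∑ i, c i * f i n = 0) → c = 0) :
    ∃ m B : ℕ, ∀ l : ℕ, ∀ _ : Fact l.Prime, B < l → ∀ c : ι → ZMod l,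
      (∀ n < m, ∑ i, c i * ((f i n : ℚ) : ZMod l) = 0) → c = 0 := by
  obtain ⟨m, hm⟩ := indep_trunc f hf
  obtain ⟨F, hF⟩ : ∃ F : (ι → ℚ) →ₗ[ℚ] (Fin m → ℚ), ∀ c n, F c n = ∑ i, c i * f i n := by
    refine ⟨{ toFun := fun c n => ∑ i, c i * f i n, map_add' := ?_, map_smul' := ?_ },
      fun _ _ => rfl⟩
    · intro c c'
      funext n
      simp only [Pi.add_apply, add_mul, Finset.sum_add_distrib]
    · intro r c
      funext n
      simp only [Pi.smul_apply, smul_eq_mul, mul_assoc, Finset.mul_sum, RingHom.id_apply]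
  have hinj : LinearMap.ker F = ⊥ := by
    rw [LinearMap.ker_eq_bot']
    intro c hc
    refine hm c fun n hn => ?_
    have h1 := congrFun hc ⟨n, hn⟩
    rw [hF] at h1
    exact h1
  obtain ⟨g, hg⟩ := F.exists_leftInverse_of_injective hinj
  obtain ⟨V, hV⟩ : ∃ V : Fin m → ι → ℚ, ∀ n j, V n j = g (Pi.single n 1) j := ⟨_, fun _ _ => rfl⟩
  have hVg : ∀ y : Fin m → ℚ, ∀ j, g y j = ∑ n, y n * V n j := by
    intro y j
    have h1 : y = ∑ n, y n • (Pi.single n (1 : ℚ) : Fin m → ℚ) := by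
      funext k
      rw [Finset.sum_apply]
      simp [Pi.single_apply]
    conv_lhs => rw [h1]
    rw [map_sum, Finset.sum_apply]
    refine Finset.sum_congr rfl fun n _ => ?_
    rw [map_smul, Pi.smul_apply, smul_eq_mul, hV]
  have hdelta : ∀ i j, ∑ n : Fin m, f i n * V n j = if i = j then 1 else 0 := by
    intro i j
    have h1 : g (F (Pi.single i 1)) = Pi.single i 1 := by
      have := LinearMap.congr_fun hg (Pi.single i 1)
      simpa using this
    have h2 := congrFun h1 j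
    rw [hVg] at h2
    have h3 : ∀ n : Fin m, F (Pi.single i 1) n = f i n := by
      intro n
      rw [hF]
      simp [Pi.single_apply]
    simp only [h3] at h2
    rw [h2, Pi.single_apply]
    by_cases hij : i = j
    · rw [if_pos hij, if_pos hij.symm]
    · rw [if_neg hij, if_neg (fun h => hij h.symm)]
  refine ⟨m, ∑ i, ∑ n : Fin m, ((f i n).den + (V n i).den), fun l hl hB c hc => ?_⟩
  have hbd : ∀ i, ∀ n : Fin m, (f i n).den + (V n i).den < l := by
    intro i n
    refine lt_of_le_of_lt ?_ hB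
    have h1 : (f i n).den + (V n i).den ≤ ∑ n : Fin m, ((f i n).den + (V n i).den) :=
      Finset.single_le_sum (f := fun n : Fin m => (f i n).den + (V n i).den)
        (fun _ _ => Nat.zero_le _) (Finset.mem_univ n)
    refine h1.trans ?_
    exact Finset.single_le_sum (f := fun i => ∑ n : Fin m, ((f i n).den + (V n i).den))
      (fun _ _ => Nat.zero_le _) (Finset.mem_univ i)
  have hfd : ∀ i, ∀ n : Fin m, ¬ l ∣ (f i n).den := by
    intro i n h
    have h1 := Nat.le_of_dvd (f i n).pos h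
    have h2 := hbd i n
    omega
  have hVd : ∀ i, ∀ n : Fin m, ¬ l ∣ (V n i).den := by
    intro i n h
    have h1 := Nat.le_of_dvd (V n i).pos h
    have h2 := hbd i n
    omega
  funext j
  have e1 : ∀ i, ∑ n : Fin m, ((f i n : ℚ) : ZMod l) * ((V n j : ℚ) : ZMod l) =
      if i = j then 1 else 0 := by
    intro i
    have h1 : ((∑ n : Fin m, f i n * V n j : ℚ) : ZMod l) = ((if i = j then 1 else 0 : ℚ) : ZMod l) := by
      rw [hdelta i j]
    rw [cast_sum_pi _ _ (fun n _ => pi_mul (hfd i n) (hVd j n))] at h1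
    have h2 : ∀ n : Fin m, ((f i n * V n j : ℚ) : ZMod l) =
        ((f i n : ℚ) : ZMod l) * ((V n j : ℚ) : ZMod l) := fun n => cast_mul_pi (hfd i n) (hVd j n)
    simp only [h2] at h1
    rw [h1]
    split_ifs <;> simp
  have e2 : c j = ∑ i, c i * (if i = j then 1 else 0) := by
    simp
  rw [e2]
  simp only [← e1]
  simp only [Finset.mul_sum]
  rw [Finset.sum_comm]
  refine Finset.sum_eq_zero fun n _ => ?_
  have h3 := hc n n.2
  have h4 : ∑ i, c i * (((f i n : ℚ) : ZMod l) * ((V n j : ℚ) : ZMod l)) =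
      (∑ i, c i * ((f i n : ℚ) : ZMod l)) * ((V n j : ℚ) : ZMod l) := by
    rw [Finset.sum_mul]
    exact Finset.sum_congr rfl fun i _ => by ring
  rw [h4, h3, zero_mul]

/-- The Hecke relation at `l`. -/
def HeckeAt (k : ℕ) (a : ℕ → ℤ) (l : ℕ) : Prop :=
  ∀ n, a (l * n) = a l * a n - (if l ∣ n then (l : ℤ) ^ (k - 1) * a (n / l) else 0)

theorem hecke_pow {k : ℕ} {a : ℕ → ℤ} {l : ℕ} (hl : l.Prime) (hH : HeckeAt k a l) (h1 : a 1 = 1)
    (L : ℕ) : (∀ n : ℕ, ¬ l ∣ n → a (l ^ L * n) = a (l ^ L) * a n) ∧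
      (∀ n : ℕ, ¬ l ∣ n → a (l ^ (L + 1) * n) = a (l ^ (L + 1)) * a n) := by
  induction L with
  | zero =>
    constructor
    · intro n _
      rw [pow_zero, one_mul, h1, one_mul]
    · intro n hn
      rw [zero_add, pow_one, hH n, if_neg hn, sub_zero]
  | succ L ih =>
    refine ⟨ih.2, fun n hn => ?_⟩
    have hl0 : 0 < l := hl.pos
    have e1 : l ^ (L + 1 + 1) * n = l * (l ^ (L + 1) * n) := by ring
    have e2 : l ^ (L + 1 + 1) = l * l ^ (L + 1) := by ring
    have d1 : l ∣ l ^ (L + 1) * n := Dvd.dvd.mul_right (dvd_pow_self l (by omega)) n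
    have d2 : l ∣ l ^ (L + 1) := dvd_pow_self l (by omega)
    have q1 : l ^ (L + 1) * n / l = l ^ L * n := by
      rw [show l ^ (L + 1) * n = l * (l ^ L * n) by ring]
      exact Nat.mul_div_cancel_left _ hl0
    have q2 : l ^ (L + 1) / l = l ^ L := by
      rw [pow_succ]
      exact Nat.mul_div_cancel _ hl0
    rw [e1, hH (l ^ (L + 1) * n), if_pos d1, q1, ih.2 n hn, ih.1 n hn, e2, hH (l ^ (L + 1)),
      if_pos d2, q2]
    ring

theorem hecke_unit {k : ℕ} (hk : 2 ≤ k) {a : ℕ → ℤ} {l : ℕ} (hl : l.Prime) (hH : HeckeAt k a l)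
    (h1 : a 1 = 1) (hu : ¬ (l : ℤ) ∣ a l) (L : ℕ) : ¬ (l : ℤ) ∣ a (l ^ L) := by
  have hlp : Prime (l : ℤ) := Nat.prime_iff_prime_int.1 hl
  induction L with
  | zero =>
    rw [pow_zero, h1]
    exact fun h => hlp.not_isUnit (isUnit_of_dvd_one h)
  | succ L ih =>
    rw [pow_succ, Nat.mul_comm, hH (l ^ L)]
    intro h
    have h2 : (l : ℤ) ∣ (if l ∣ l ^ L then (l : ℤ) ^ (k - 1) * a (l ^ L / l) else 0) := by
      split_ifs
      · exact Dvd.dvd.mul_right (dvd_pow_self _ (by omega)) _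
      · exact dvd_zero _
    have h3 : (l : ℤ) ∣ a l * a (l ^ L) := by
      have := dvd_add h h2
      rwa [sub_add_cancel] at this
    rcases hlp.dvd_or_dvd h3 with h4 | h4
    · exact hu h4
    · exact ih h4

theorem Ord_of {k : ℕ} (hk : 2 ≤ k) {a : ℕ → ℤ} {l : ℕ} [hl : Fact l.Prime]
    (hH : HeckeAt k a l) (h1 : a 1 = 1) (hu : ¬ (l : ℤ) ∣ a l) :
    Ord l (fun n => (a n : ℚ) / (n : ℚ)) := by
  refine ⟨fun n => ?_, fun L => ⟨a (l ^ L), hecke_unit hk hl.out hH h1 hu L, fun n hn => ?_⟩, ?_⟩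
  · by_cases hn : n = 0
    · subst hn
      simp only [Nat.cast_zero, div_zero, mul_zero]
      exact pi_int (p := l) 0
    · obtain ⟨q, hq, hq1⟩ : ∃ q : ℕ, n = l ^ padicValNat l n * q ∧ ¬ l ∣ q := by
        obtain ⟨q, hq⟩ := (pow_padicValNat_dvd : l ^ padicValNat l n ∣ n)
        refine ⟨q, hq, fun hlq => ?_⟩
        have h2 : l ^ (padicValNat l n + 1) ∣ n := by
          rw [pow_succ]
          conv_rhs => rw [hq]
          exact Nat.mul_dvd_mul_left _ hlq
        exact pow_succ_padicValNat_not_dvd hn h2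
      have hl0 : (l : ℚ) ≠ 0 := by exact_mod_cast hl.out.ne_zero
      have e1 : (l : ℚ) ^ padicValNat l n * ((a n : ℚ) / (n : ℚ)) = (a n : ℚ) / (q : ℚ) := by
        have hq0 : (q : ℚ) ≠ 0 := by
          have : q ≠ 0 := by
            rintro rfl
            exact hq1 (dvd_zero l)
          exact_mod_cast this
        have e2 : (n : ℚ) = (l : ℚ) ^ padicValNat l n * (q : ℚ) := by
          exact_mod_cast hq
        rw [show ((a n : ℚ) / (n : ℚ)) = (a n : ℚ) / ((l : ℚ) ^ padicValNat l n * (q : ℚ)) by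
          rw [← e2]]
        field_simp
      rw [e1]
      exact pi_div _ _ hq1
  · have hl0 : (l : ℚ) ^ L ≠ 0 := pow_ne_zero _ (by exact_mod_cast hl.out.ne_zero)
    have hn0 : (n : ℚ) ≠ 0 := by
      have : n ≠ 0 := by
        rintro rfl
        exact hn (dvd_zero l)
      exact_mod_cast this
    rw [(hecke_pow hl.out hH h1 L).1 n hn]
    push_cast
    field_simp
  · simp

end H80V
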