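import Pool.Agent.Lib.H80V.V2
import Pool.Agent.Lib.H6D.Defs

/-!
# H80V, V3: the zero estimate of fixed degree for the primitives of a newform
-/

namespace H80V

open H53M H36D PowerSeries Finset

theorem VV_eq_dil (a : ℕ → ℤ) (d : ℕ) :
    H6D.VV d (H6V.hq a) = dil d (fun n => (a n : ℚ) / (n : ℚ)) := by
  ext n
  simp only [H6D.VV, H6V.hq, dil, coeff_mk]

/-- Linear independence over `ℚ` of the monomials of degree `J`. -/
theorem indep_Hm {r : ℕ} (h : Fin r → PowerSeries ℚ)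
    (hind : ∀ (S : Finset (Fin r → ℕ)) (P : (Fin r → ℕ) → PowerSeries ℤ), (∃ α ∈ S, P α ≠ 0) →
      ∑ α ∈ S, toQ (P α) * Hm h α ≠ 0) (S : Finset (Fin r → ℕ))
    (c : S → ℚ) (hc : ∀ n, ∑ i, c i * coeff n (Hm h i) = 0) : c = 0 := by
  classical
  by_contra hne
  obtain ⟨i0, hi0⟩ : ∃ i, c i ≠ 0 := by
    by_contra h1
    apply hne
    funext i
    by_contra h2
    exact h1 ⟨i, h2⟩
  obtain ⟨D, hD⟩ : ∃ D : ℕ, D = ∏ i, (c i).den := ⟨_, rfl⟩
  have hD0 : (D : ℚ) ≠ 0 := by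
    rw [hD]
    have : ∏ i, (c i).den ≠ 0 := Finset.prod_ne_zero_iff.2 fun i _ => (c i).den_nz
    exact_mod_cast this
  have hz : ∀ i, ∃ z : ℤ, (z : ℚ) = D * c i := by
    intro i
    obtain ⟨e, he⟩ : (c i).den ∣ D := by
      rw [hD]
      exact Finset.dvd_prod_of_mem (fun i => (c i).den) (Finset.mem_univ i)
    refine ⟨e * (c i).num, ?_⟩
    rw [he]
    push_cast
    have := Rat.mul_den_eq_num (c i)
    rw [← this]
    ring
  choose z hz using hz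
  obtain ⟨P, hP⟩ : ∃ P : (Fin r → ℕ) → PowerSeries ℤ, ∀ i : S, P i = C (z i) := by
    refine ⟨fun al => if h : al ∈ S then C (z ⟨al, h⟩) else 0, fun i => ?_⟩
    change (if h : (i : Fin r → ℕ) ∈ S then C (z ⟨i, h⟩) else 0) = C (z i)
    rw [dif_pos i.2]
  refine hind S P ⟨i0, i0.2, ?_⟩ ?_
  · rw [hP]
    intro h1
    have h2 : z i0 = 0 := by
      have := congrArg (coeff 0) h1
      simpa using this
    have h3 := hz i0
    rw [h2, Int.cast_zero] at h3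
    rcases mul_eq_zero.1 h3.symm with h4 | h4
    · exact hD0 h4
    · exact hi0 h4
  · rw [← Finset.sum_coe_sort S]
    ext n
    rw [map_sum, map_zero]
    have h1 := hc n
    have h2 : ∀ i : S, coeff n (toQ (P i) * Hm h i) = D * (c i * coeff n (Hm h i)) := by
      intro i
      rw [hP i, map_C, coeff_C_mul, eq_intCast, hz i]
      ring
    simp only [h2]
    rw [← Finset.mul_sum, h1, mul_zero]

theorem zero_est {r : ℕ} (a : ℕ → ℤ) (k : ℕ) (hk : 2 ≤ k) (h1 : a 1 = 1)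
    (hord : ∀ B : ℕ, ∃ l : ℕ, B < l ∧ l.Prime ∧ HeckeAt k a l ∧ ¬ (l : ℤ) ∣ a l)
    (hind : ∀ (S : Finset (Fin r → ℕ)) (P : (Fin r → ℕ) → PowerSeries ℤ), (∃ α ∈ S, P α ≠ 0) →
      ∑ α ∈ S, toQ (P α) * Hm (fun σ : Fin r => H6D.VV (σ + 1) (H6V.hq a)) α ≠ 0) (J : ℕ) :
    ∃ l K : ℕ, l.Prime ∧ ∀ (W : ℕ) (x : (Fin r → ℕ) × ℕ → ℤ), (∃ t ∈ Ix r J W, ¬ (l : ℤ) ∣ x t) →
      ∃ n < K * (W + 1), coeff n (Ah (fun σ : Fin r => H6D.VV (σ + 1) (H6V.hq a)) J W x) ≠ 0 := by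
  classical
  obtain ⟨g, hg⟩ : ∃ g : ℕ → ℚ, g = fun n => (a n : ℚ) / (n : ℚ) := ⟨_, rfl⟩
  have hh : (fun σ : Fin r => H6D.VV (σ + 1) (H6V.hq a)) = fun s : Fin r => dil (s + 1) g := by
    funext s
    rw [VV_eq_dil, hg]
  rw [hh] at hind ⊢
  obtain ⟨m, B, hmB⟩ := indep_mod
    (fun (i : (Finset.piAntidiag (univ : Finset (Fin r)) J)) n =>
      coeff n (Hm (fun s : Fin r => dil (s + 1) g) i))
    (fun c hc => indep_Hm _ hind _ c hc)
  obtain ⟨l, hl1, hl2, hl3, hl4⟩ := hord (max m B)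
  have : Fact l.Prime := ⟨hl2⟩
  have hgl : Ord l g := by
    rw [hg]
    exact Ord_of hk hl3 h1 hl4
  refine ⟨l, m * l, hl2, fun W x hx => ?_⟩
  have hml : m ≤ l := le_trans (le_max_left _ _) hl1.le
  obtain ⟨n, hn, hne⟩ := zero_l hgl (fun s : Fin r => (s : ℕ) + 1) (fun s => Nat.succ_pos _) J m hml
    (by
      intro c hc al hal
      have h2 := hmB l ⟨hl2⟩ (lt_of_le_of_lt (le_max_right _ _) hl1) (fun i => c i) (by
        intro n hn
        have h3 := hc n hn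
        rw [← Finset.sum_coe_sort] at h3
        exact h3)
      exact congrFun h2 ⟨al, hal⟩) W x hx
  exact ⟨n, by rw [Nat.mul_assoc]; exact hn, hne⟩

end H80V
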