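import Pool.Agent.Lib.H80V.V7
import Pool.Agent.Lib.H6D.F2
import Pool.Agent.Lib.H6D.T7

/-!
# H80V, V8: case II of Theorem D for a newform on `Γ₀(N)` with rational coefficients
-/

namespace H80V

open H53M H94M H36D H6D H6V PowerSeries UpperHalfPlane Filter Topology

theorem Dat_mono {r v μ s : ℕ} {h : Fin r → PowerSeries ℚ} {b : ℕ → ℤ} {Exc Exc' : ℕ → Prop}
    (hD : Dat r v μ s h b Exc) (hE : ∀ p, Exc p → Exc' p) : Dat r v μ s h b Exc' :=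
  { zero := hD.zero
    growth := hD.growth
    den := hD.den
    int := fun σ n p hp hn => hD.int σ n p hp fun h1 => hn (hE p h1)
    big := fun p hp hn => hD.big p hp fun h1 => hn (hE p h1)
    mu_pos := hD.mu_pos
    fam := fun p _ hn => hD.fam p fun h1 => hn (hE p h1)
    ind := hD.ind }

theorem density_II (N k : ℕ) (hN : N ≠ 0) (hk : 4 ≤ k) (a : ℕ → ℤ) (f : CuspForm (G0 N) (k : ℤ))
    (ha : ∀ n, PowerSeries.coeff n (qExpansion 1 (f : ℍ → ℂ)) = (a n : ℂ)) (h1 : a 1 = 1)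
    (hH : ∀ p : ℕ, p.Prime → ¬ p ∣ N → ∀ n,
      a (p * n) = a p * a n - (if p ∣ n then (p : ℤ) ^ (k - 1) * a (n / p) else 0))
    (hind : ∀ (S : Finset (Fin 3 → ℕ)) (P : (Fin 3 → ℕ) → PowerSeries ℤ), (∃ α ∈ S, P α ≠ 0) →
      ∑ α ∈ S, toQ (P α) * H36D.Hm (fun σ : Fin 3 => VV ((σ : ℕ) + 1) (hq a)) α ≠ 0)
    (hord : ∀ M : ℕ, ∃ l : ℕ, M < l ∧ l.Prime ∧ ¬ (l : ℤ) ∣ a l)
    (hb : ∃ p₂ : ℕ, ∀ p : ℕ, p.Prime → p₂ < p → (p : ℤ) ∣ a p → (p : ℤ) ∣ a p / p) :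
    ∃ c : ℝ, 0 < c ∧ ∀ᶠ Y : ℕ in atTop, c * (Nat.primeCounting Y : ℝ) ≤
      (Set.ncard {p : ℕ | p ≤ Y ∧ p.Prime ∧ ¬ (p : ℤ) ∣ a p} : ℝ) := by
  classical
  obtain ⟨p₂, hp₂⟩ := hb
  have hD := dat_of N k 3 hN hk a f ha h1 hH hind
  obtain ⟨M, hM⟩ : ∃ M, M = N + 3 + 5 + p₂ := ⟨_, rfl⟩
  have hD' := Dat_mono (Exc' := fun p => ¬ (p : ℤ) ∣ a p ∨ p ≤ M) hD (by
    rintro p (h | h)
    · exact Or.inl h
    · exact Or.inr (by omega))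
  have hord' : ∀ B : ℕ, ∃ l : ℕ, B < l ∧ l.Prime ∧ HeckeAt k a l ∧ ¬ (l : ℤ) ∣ a l := by
    intro B
    obtain ⟨l, hl1, hl2, hl3⟩ := hord (max B N)
    have hlB : B < l := lt_of_le_of_lt (le_max_left _ _) hl1
    have hlN : ¬ l ∣ N := by
      intro h
      have h2 := Nat.le_of_dvd (Nat.pos_of_ne_zero hN) h
      have h3 : N < l := lt_of_le_of_lt (le_max_right _ _) hl1
      omega
    exact ⟨l, hlB, hl2, hH l hl2 hlN, hl3⟩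
  obtain ⟨δ, hδ, X₀, hX₀⟩ := caseII k (k - 2) _ 0 (by omega) a h1 hord' (fun p => a p / p)
    (fun p => ¬ (p : ℤ) ∣ a p ∨ p ≤ M) hD' (by
      intro p hp hE
      rw [not_or, not_not, not_le] at hE
      exact hp₂ p hp (by omega) hE.1)
  refine dens_of_scale (fun p => ¬ (p : ℤ) ∣ a p) M 1 le_rfl δ hδ X₀ fun X hX => ?_
  have h2 := hX₀ (X + 1) (by omega)
  rw [Nat.cast_one, one_mul, one_mul]
  push_cast at h2
  have h3 : δ * (X : ℝ) < δ * ((X : ℝ) + 1) := by linarith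
  exact lt_of_lt_of_le h3 h2

end H80V
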