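import Pool.Agent.Lib.H36D.Defs
import Pool.Agent.Lib.H53M.KR
import Pool.Agent.Lib.H53M.Q1

/-!
# H80V, Z1: tools for the zero estimate of fixed degree

* `ech`: a sum `Σ_i e_i(q) R_i(q^Q)` with `ord e_i = i < Q` which vanishes to order `m Q` has all `R_i`
  vanishing to order `m`.
* `Hm_congr`, `PI_Hm`, `redQ_Hm`: the monomials `Hm` under congruences and reductions.
* `indep_mod`: linear independence over `ℚ` gives linear independence modulo all large primes.
-/

namespace H80V

open H53M H36D PowerSeries Finset

theorem ech {F : Type*} [CommRing F] (Q : ℕ) (hQ : Q ≠ 0) (W m : ℕ) (hW : W < Q)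
    (e R : ℕ → PowerSeries F) (he : ∀ i ≤ W, coeff i (e i) = 1)
    (he0 : ∀ i ≤ W, ∀ n < i, coeff n (e i) = 0)
    (h : ∀ n < m * Q, coeff n (∑ i ∈ range (W + 1), e i * expand Q hQ (R i)) = 0) :
    ∀ i ≤ W, ∀ k < m, coeff k (R i) = 0 := by
  have hQ0 : 0 < Q := Nat.pos_of_ne_zero hQ
  have key : ∀ n, ∀ i k, i ≤ W → k < m → n = Q * k + i → coeff k (R i) = 0 := by
    intro n
    induction n using Nat.strong_induction_on with
    | _ n ih =>
      intro i k hi hk hn
      have hnM : n < m * Q := by
        have h1 : Q * (k + 1) ≤ Q * m := Nat.mul_le_mul_left Q hk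
        rw [hn, Nat.mul_comm m Q]
        have h2 : Q * (k + 1) = Q * k + Q := by ring
        omega
      have h1 := h n hnM
      rw [map_sum] at h1
      rw [Finset.sum_eq_single i] at h1
      · rw [PowerSeries.coeff_mul, Finset.sum_eq_single (i, Q * k)] at h1
        · rw [he i hi, one_mul, coeff_expand_mul] at h1
          exact h1
        · rintro ⟨a, b⟩ hab hne
          rw [Finset.HasAntidiagonal.mem_antidiagonal] at hab
          by_cases hQb : Q ∣ b
          · obtain ⟨k', rfl⟩ := hQb
            simp only at hab ⊢
            rw [coeff_expand_mul]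
            by_cases ha : a < i
            · rw [he0 i hi a ha, zero_mul]
            · have h3 : a ≠ i := by
                intro h4
                apply hne
                subst h4
                have : Q * k' = Q * k := by omega
                rw [this]
              have h5 : Q * k' + i < n := by omega
              have h6 : k' < m := by
                have h7 : Q * k' < Q * m := by
                  rw [Nat.mul_comm Q m]
                  omega
                exact Nat.lt_of_mul_lt_mul_left h7
              rw [ih (Q * k' + i) h5 i k' hi h6 rfl, mul_zero]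
          · rw [coeff_expand_of_not_dvd Q hQ _ hQb, mul_zero]
        · intro h2
          exact absurd (Finset.HasAntidiagonal.mem_antidiagonal.2 (by simp only; omega)) h2
      · intro j hj hji
        have hjW : j ≤ W := by
          have := Finset.mem_range.1 hj
          omega
        rw [PowerSeries.coeff_mul]
        refine Finset.sum_eq_zero ?_
        rintro ⟨a, b⟩ hab
        rw [Finset.HasAntidiagonal.mem_antidiagonal] at hab
        by_cases hQb : Q ∣ b
        · obtain ⟨k', rfl⟩ := hQb
          simp only at hab ⊢
          rw [coeff_expand_mul]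
          by_cases ha : a < j
          · rw [he0 j hjW a ha, zero_mul]
          · have h6 : k' < m := by
              have h7 : Q * k' < Q * m := by
                rw [Nat.mul_comm Q m]
                omega
              exact Nat.lt_of_mul_lt_mul_left h7
            rcases Nat.lt_or_ge (Q * k' + j) n with h5 | h5
            · rw [ih (Q * k' + j) h5 j k' hjW h6 rfl, mul_zero]
            · exfalso
              apply hji
              have h8 : Q * k' + j = Q * k + i := by omega
              have h9 : (Q * k' + j) % Q = j := by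
                rw [Nat.mul_add_mod]
                exact Nat.mod_eq_of_lt (by omega)
              have h10 : (Q * k + i) % Q = i := by
                rw [Nat.mul_add_mod]
                exact Nat.mod_eq_of_lt (by omega)
              rw [h8, h10] at h9
              exact h9.symm
        · rw [coeff_expand_of_not_dvd Q hQ _ hQb, mul_zero]
      · intro h2
        exact absurd (Finset.mem_range.2 (by omega)) h2
  intro i hi k hk
  exact key _ i k hi hk rfl

/-- Congruence modulo `X ^ M`. -/
def Cg {R : Type*} [CommRing R] (M : ℕ) (f g : PowerSeries R) : Prop :=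
  ∀ n < M, coeff n f = coeff n g

theorem Cg_iff {R : Type*} [CommRing R] {M : ℕ} {f g : PowerSeries R} :
    Cg M f g ↔ (X : PowerSeries R) ^ M ∣ f - g := by
  rw [PowerSeries.X_pow_dvd_iff]
  constructor
  · intro h n hn
    rw [map_sub, h n hn, sub_self]
  · intro h n hn
    have := h n hn
    rw [map_sub, sub_eq_zero] at this
    exact this

theorem Cg_refl {R : Type*} [CommRing R] (M : ℕ) (f : PowerSeries R) : Cg M f f := fun _ _ => rfl

theorem Cg_mul {R : Type*} [CommRing R] {M : ℕ} {f g f' g' : PowerSeries R} (h : Cg M f f')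
    (h' : Cg M g g') : Cg M (f * g) (f' * g') := by
  rw [Cg_iff] at *
  have : f * g - f' * g' = (f - f') * g + f' * (g - g') := by ring
  rw [this]
  exact dvd_add (h.mul_right g) (h'.mul_left f')

theorem Cg_pow {R : Type*} [CommRing R] {M : ℕ} {f f' : PowerSeries R} (h : Cg M f f') (n : ℕ) :
    Cg M (f ^ n) (f' ^ n) := by
  induction n with
  | zero =>
    rw [pow_zero, pow_zero]
    exact Cg_refl M 1
  | succ n ih =>
    rw [pow_succ, pow_succ]
    exact Cg_mul ih h

theorem Cg_sum {R : Type*} [CommRing R] {M : ℕ} {ι : Type*} (s : Finset ι)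
    {f f' : ι → PowerSeries R} (h : ∀ i ∈ s, Cg M (f i) (f' i)) :
    Cg M (∑ i ∈ s, f i) (∑ i ∈ s, f' i) := by
  intro n hn
  rw [map_sum, map_sum]
  exact Finset.sum_congr rfl fun i hi => h i hi n hn

theorem Cg_smul {R : Type*} [CommRing R] {M : ℕ} (c : R) {f f' : PowerSeries R} (h : Cg M f f') :
    Cg M (c • f) (c • f') := by
  intro n hn
  rw [PowerSeries.coeff_smul, PowerSeries.coeff_smul, h n hn]

theorem Cg_Hm {R : Type*} [CommRing R] {r : ℕ} {M : ℕ} {f f' : Fin r → PowerSeries R}
    (h : ∀ s, Cg M (f s) (f' s)) (al : Fin r → ℕ) : Cg M (Hm f al) (Hm f' al) := by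
  have key : ∀ A : Finset (Fin r), Cg M (∏ s ∈ A, f s ^ al s) (∏ s ∈ A, f' s ^ al s) := by
    intro A
    induction A using Finset.induction_on with
    | empty =>
      rw [Finset.prod_empty, Finset.prod_empty]
      exact Cg_refl M 1
    | insert a A ha ih =>
      rw [Finset.prod_insert ha, Finset.prod_insert ha]
      exact Cg_mul (Cg_pow (h a) _) ih
  exact key Finset.univ

theorem Hm_smul {R : Type*} [CommRing R] {r : ℕ} (c : R) (f : Fin r → PowerSeries R)
    (al : Fin r → ℕ) : Hm (fun s => c • f s) al = c ^ (∑ s, al s) • Hm f al := by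
  unfold Hm
  simp only [smul_pow]
  rw [Finset.prod_smul, Finset.prod_pow_eq_pow_sum]

theorem PI_Hm {p : ℕ} [Fact p.Prime] {r : ℕ} {h : Fin r → PowerSeries ℚ} (hh : ∀ s, PI p (h s))
    (al : Fin r → ℕ) : PI p (Hm h al) ∧ redQ p (Hm h al) = Hm (fun s => redQ p (h s)) al := by
  have key : ∀ A : Finset (Fin r), PI p (∏ s ∈ A, h s ^ al s) ∧
      redQ p (∏ s ∈ A, h s ^ al s) = ∏ s ∈ A, redQ p (h s) ^ al s := by
    intro A
    induction A using Finset.induction_on with
    | empty =>
      have h1 := PI_natCast (p := p) 1
      have h2 := kredQ_natCast (p := p) 1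
      rw [Nat.cast_one] at h1 h2
      rw [Finset.prod_empty, Finset.prod_empty]
      refine ⟨h1, ?_⟩
      rw [h2, Nat.cast_one]
    | insert a A ha ih =>
      rw [Finset.prod_insert ha, Finset.prod_insert ha]
      refine ⟨PI_mul (PI_pow (hh a) _) ih.1, ?_⟩
      rw [kredQ_mul (PI_pow (hh a) _) ih.1, kredQ_pow (hh a), ih.2]
  exact key Finset.univ

theorem expand_Hm {F : Type*} [CommRing F] (Q : ℕ) (hQ : Q ≠ 0) {r : ℕ}
    (g : Fin r → PowerSeries F) (al : Fin r → ℕ) :
    Hm (fun s => expand Q hQ (g s)) al = expand Q hQ (Hm g al) := by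
  unfold Hm
  rw [map_prod]
  exact Finset.prod_congr rfl fun s _ => (map_pow _ _ _).symm

end H80V
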