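import Pool.Agent.Lib.H80V.Z1

/-!
# H80V, Z2: the zero estimate of fixed degree from one ordinary prime

`g : ℕ → ℚ` (in the application `g n = a(n)/n`) and a prime `l` such that `l^(v(n)) g(n)` is `l`-integral and
`l^L g(l^L n) = u_L g(n)` with a unit `u_L` for `n` prime to `l`. Then the products of degree `J` of the series
`h_s = Σ g(n) q^(d_s n)` satisfy: `Σ P_α h^α ≠ 0` has order `< m l (W+1)` if the `P_α` have level one and weight `12 W`.
-/

namespace H80V

open H53M H36D PowerSeries Finset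

/-- The properties of `g n = a(n)/n` at an ordinary prime `l`. -/
structure Ord (l : ℕ) (g : ℕ → ℚ) : Prop where
  int : ∀ n, ¬ l ∣ ((l : ℚ) ^ (padicValNat l n) * g n).den
  unit : ∀ L : ℕ, ∃ u : ℤ, ¬ (l : ℤ) ∣ u ∧ ∀ n : ℕ, ¬ l ∣ n → (l : ℚ) ^ L * g (l ^ L * n) = u * g n
  zero : g 0 = 0

/-- `Σ g(n) q^(d n)`. -/
noncomputable def dil (d : ℕ) (g : ℕ → ℚ) : PowerSeries ℚ :=
  PowerSeries.mk fun n => if d ∣ n then g (n / d) else 0

theorem Ord_pow_int {l : ℕ} [hl : Fact l.Prime] {g : ℕ → ℚ} (hg : Ord l g) {L n : ℕ}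
    (hn : padicValNat l n ≤ L) : ¬ l ∣ ((l : ℚ) ^ L * g n).den := by
  obtain ⟨c, rfl⟩ := Nat.exists_eq_add_of_le hn
  have h1 : (l : ℚ) ^ (padicValNat l n + c) * g n =
      ((l ^ c : ℕ) : ℚ) * ((l : ℚ) ^ (padicValNat l n) * g n) := by
    push_cast
    ring
  rw [h1]
  exact pi_mul (pi_nat _) (hg.int n)

theorem Ord_cast_zero {l : ℕ} [hl : Fact l.Prime] {g : ℕ → ℚ} (hg : Ord l g) {L n : ℕ}
    (hn : padicValNat l n < L) : (((l : ℚ) ^ L * g n : ℚ) : ZMod l) = 0 := by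
  obtain ⟨c, rfl⟩ := Nat.exists_eq_add_of_lt hn
  have h1 : (l : ℚ) ^ (padicValNat l n + c + 1) * g n =
      ((l : ℕ) : ℚ) * (((l ^ c : ℕ) : ℚ) * ((l : ℚ) ^ (padicValNat l n) * g n)) := by
    push_cast
    ring
  rw [h1, cast_mul_pi (pi_nat _) (pi_mul (pi_nat _) (hg.int n))]
  rw [Rat.cast_natCast, ZMod.natCast_self, zero_mul]

theorem val_lt_of_not_dvd {l : ℕ} [hl : Fact l.Prime] {L n : ℕ} (h : ¬ l ^ L ∣ n) :
    padicValNat l n < L := by
  by_contra h1
  apply h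
  exact (pow_dvd_pow l (not_lt.1 h1)).trans pow_padicValNat_dvd

theorem val_le_of_lt {l : ℕ} [hl : Fact l.Prime] {L m n : ℕ} (hm : m ≤ l) (h0 : n ≠ 0)
    (h : n < m * l ^ L) : padicValNat l n ≤ L := by
  by_contra h1
  have h2 : L + 1 ≤ padicValNat l n := by omega
  have h3 : l ^ (L + 1) ∣ n := (pow_dvd_pow l h2).trans pow_padicValNat_dvd
  have h4 := Nat.le_of_dvd (Nat.pos_of_ne_zero h0) h3
  have h5 : m * l ^ L ≤ l * l ^ L := Nat.mul_le_mul_right _ hm
  rw [pow_succ, Nat.mul_comm] at h4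
  omega

section

variable {l : ℕ} [hl : Fact l.Prime] {g : ℕ → ℚ} (hg : Ord l g) (d : ℕ) (hd : 0 < d) (L m : ℕ)

/-- `l^L h` truncated. -/
noncomputable def tr1 (l : ℕ) (g : ℕ → ℚ) (d L m : ℕ) : PowerSeries ℚ :=
  PowerSeries.mk fun n => if n < m * l ^ L then (l : ℚ) ^ L * coeff n (dil d g) else 0

/-- `h` truncated. -/
noncomputable def tr2 (g : ℕ → ℚ) (d m : ℕ) : PowerSeries ℚ :=
  PowerSeries.mk fun n => if n < m then coeff n (dil d g) else 0

include hg hd

theorem PI_tr1 (hm : m ≤ l) : PI l (tr1 l g d L m) := by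
  intro n
  unfold tr1
  rw [coeff_mk]
  by_cases h : n < m * l ^ L
  · rw [if_pos h]
    unfold dil
    rw [coeff_mk]
    by_cases h1 : d ∣ n
    · rw [if_pos h1]
      by_cases h2 : n / d = 0
      · rw [h2, hg.zero, mul_zero]
        exact pi_int (p := l) 0
      · refine Ord_pow_int hg (val_le_of_lt hm h2 (lt_of_le_of_lt (Nat.div_le_self n d) h))
    · rw [if_neg h1, mul_zero]
      exact pi_int (p := l) 0
  · rw [if_neg h]
    exact pi_int (p := l) 0

theorem PI_tr2 (hm : m ≤ l) : PI l (tr2 g d m) := by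
  intro n
  unfold tr2
  rw [coeff_mk]
  by_cases h : n < m
  · rw [if_pos h]
    unfold dil
    rw [coeff_mk]
    by_cases h1 : d ∣ n
    · rw [if_pos h1]
      by_cases h2 : n / d = 0
      · rw [h2, hg.zero]
        exact pi_int (p := l) 0
      · have h3 := Ord_pow_int hg (L := 0) (n := n / d)
          (val_le_of_lt hm h2 (by
            rw [pow_zero, mul_one]
            exact lt_of_le_of_lt (Nat.div_le_self n d) h))
        rw [pow_zero, one_mul] at h3
        exact h3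
    · rw [if_neg h1]
      exact pi_int (p := l) 0
  · rw [if_neg h]
    exact pi_int (p := l) 0

theorem Cg_tr (hm : m ≤ l) (u : ℤ) (hu : ∀ n : ℕ, ¬ l ∣ n → (l : ℚ) ^ L * g (l ^ L * n) = u * g n)
    (hQ : l ^ L ≠ 0) :
    Cg (m * l ^ L) (redQ l (tr1 l g d L m)) ((u : ZMod l) • expand (l ^ L) hQ (redQ l (tr2 g d m))) := by
  intro n hn
  have hQ0 : 0 < l ^ L := Nat.pos_of_ne_zero hQ
  have e1 : coeff n (redQ l (tr1 l g d L m)) =
      (((l : ℚ) ^ L * (if d ∣ n then g (n / d) else 0) : ℚ) : ZMod l) := by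
    simp only [redQ, tr1, dil, coeff_mk]
    rw [if_pos hn]
  rw [e1, PowerSeries.coeff_smul, smul_eq_mul]
  by_cases hQn : l ^ L ∣ n
  · obtain ⟨k, rfl⟩ := hQn
    rw [coeff_expand_mul]
    have hk : k < m := by
      rw [Nat.mul_comm m] at hn
      exact Nat.lt_of_mul_lt_mul_left hn
    have e2 : coeff k (redQ l (tr2 g d m)) = (((if d ∣ k then g (k / d) else 0) : ℚ) : ZMod l) := by
      simp only [redQ, tr2, dil, coeff_mk]
      rw [if_pos hk]
    rw [e2]
    by_cases hdk : d ∣ k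
    · obtain ⟨k', rfl⟩ := hdk
      have h1 : d ∣ l ^ L * (d * k') := Dvd.intro (l ^ L * k') (by ring)
      have h2 : l ^ L * (d * k') / d = l ^ L * k' := by
        rw [show l ^ L * (d * k') = d * (l ^ L * k') by ring]
        exact Nat.mul_div_cancel_left _ hd
      rw [if_pos h1, if_pos (Dvd.intro k' rfl), h2, Nat.mul_div_cancel_left _ hd]
      by_cases hk0 : k' = 0
      · subst hk0
        rw [mul_zero, hg.zero, mul_zero, Rat.cast_zero, mul_zero]
      · have h3 : ¬ l ∣ k' := by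
          intro h4
          have h5 := Nat.le_of_dvd (Nat.pos_of_ne_zero hk0) h4
          have h6 : k' ≤ d * k' := Nat.le_mul_of_pos_left _ hd
          omega
        have h7 : ¬ l ∣ (g k').den := by
          have h8 := Ord_pow_int hg (L := 0) (n := k') (by
            rw [padicValNat.eq_zero_of_not_dvd h3])
          rw [pow_zero, one_mul] at h8
          exact h8
        rw [hu k' h3, cast_mul_pi (pi_int u) h7, Rat.cast_intCast]
    · rw [if_neg hdk, Rat.cast_zero, mul_zero]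
      by_cases h1 : d ∣ l ^ L * k
      · rw [if_pos h1]
        refine Ord_cast_zero hg (val_lt_of_not_dvd ?_)
        rintro ⟨c, hc⟩
        apply hdk
        refine ⟨c, ?_⟩
        have h2 : l ^ L * k = l ^ L * c * d := by
          rw [← hc]
          exact (Nat.div_mul_cancel h1).symm
        have h3 : l ^ L * k = l ^ L * (d * c) := by
          rw [h2]
          ring
        exact Nat.eq_of_mul_eq_mul_left hQ0 h3
      · rw [if_neg h1, mul_zero, Rat.cast_zero]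
  · rw [coeff_expand_of_not_dvd _ hQ _ hQn, mul_zero]
    by_cases h1 : d ∣ n
    · rw [if_pos h1]
      refine Ord_cast_zero hg (val_lt_of_not_dvd ?_)
      intro h2
      exact hQn (h2.trans (Nat.div_dvd_of_dvd h1))
    · rw [if_neg h1, mul_zero, Rat.cast_zero]

end

theorem coeff_Lv_mod {R : Type*} [CommRing R] (f : ℤ →+* R) (W i : ℕ) :
    coeff i (PowerSeries.map f (Lv W i)) = 1 ∧ ∀ n < i, coeff n (PowerSeries.map f (Lv W i)) = 0 := by
  obtain ⟨u, hu, hdl⟩ := dl_factor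
  have h1 : Lv W i = X ^ i * (u ^ i * e4 ^ (3 * (W - i))) := by
    unfold Lv
    rw [hdl]
    ring
  have h2 : coeff 0 (u ^ i * e4 ^ (3 * (W - i))) = 1 := by
    rw [coeff_zero_eq_constantCoeff_apply, map_mul, map_pow, map_pow, hu,
      ← coeff_zero_eq_constantCoeff_apply e4, coeff_zero_e4, one_pow, one_pow, one_mul]
  constructor
  · rw [coeff_map, h1]
    have h3 := PowerSeries.coeff_X_pow_mul (u ^ i * e4 ^ (3 * (W - i))) i 0
    rw [zero_add] at h3
    rw [h3, h2, map_one]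
  · intro n hn
    rw [coeff_map, h1, PowerSeries.coeff_X_pow_mul', if_neg (by omega), map_zero]

theorem zero_l {l : ℕ} [hl : Fact l.Prime] {g : ℕ → ℚ} (hg : Ord l g) {r : ℕ} (d : Fin r → ℕ)
    (hd : ∀ s, 0 < d s) (J m : ℕ) (hm : m ≤ l)
    (hI : ∀ c : (Fin r → ℕ) → ZMod l, (∀ n < m, ∑ al ∈ Finset.piAntidiag univ J,
      c al * ((coeff n (Hm (fun s => dil (d s) g) al) : ℚ) : ZMod l) = 0) →
      ∀ al ∈ Finset.piAntidiag univ J, c al = 0)
    (W : ℕ) (x : (Fin r → ℕ) × ℕ → ℤ) (hx : ∃ t ∈ Ix r J W, ¬ (l : ℤ) ∣ x t) :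
    ∃ n < m * (l * (W + 1)), coeff n (Ah (fun s => dil (d s) g) J W x) ≠ 0 := by
  classical
  by_contra hcon
  have hz : ∀ n < m * (l * (W + 1)), coeff n (Ah (fun s => dil (d s) g) J W x) = 0 := by
    intro n hn
    by_contra h
    exact hcon ⟨n, hn, h⟩
  obtain ⟨L, hL⟩ : ∃ L, L = Nat.log l W + 1 := ⟨_, rfl⟩
  have hl1 : 1 < l := hl.out.one_lt
  have hWQ : W < l ^ L := by
    rw [hL]
    exact Nat.lt_pow_succ_log_self hl1 W
  have hQle : l ^ L ≤ l * (W + 1) := by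
    rw [hL, pow_succ, Nat.mul_comm]
    refine Nat.mul_le_mul_left l ?_
    by_cases hW0 : W = 0
    · subst hW0
      simp
    · exact (Nat.pow_log_le_self l hW0).trans (Nat.le_succ W)
  have hQ : l ^ L ≠ 0 := by positivity
  have hM : m * l ^ L ≤ m * (l * (W + 1)) := Nat.mul_le_mul_left m hQle
  obtain ⟨u, hu0, hu⟩ := hg.unit L
  -- the truncated auxiliary function
  have c1 : ∀ s, Cg (m * l ^ L) (tr1 l g (d s) L m) (((l : ℚ) ^ L) • dil (d s) g) := by
    intro s n hn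
    unfold tr1
    rw [coeff_mk, if_pos hn, PowerSeries.coeff_smul, smul_eq_mul]
  have c2 : Cg (m * l ^ L) (Ah (fun s => tr1 l g (d s) L m) J W x)
      ((((l : ℚ) ^ L) ^ J) • Ah (fun s => dil (d s) g) J W x) := by
    unfold Ah
    rw [Finset.smul_sum]
    refine Cg_sum _ fun t ht => ?_
    have h1 : ∑ s, t.1 s = J := by
      unfold Ix at ht
      exact (Finset.mem_piAntidiag.1 (Finset.mem_product.1 ht).1).1
    have h2 : ((((l : ℚ) ^ L) ^ J) • ((x t : ℚ) • (toQ (Lv W t.2) * Hm (fun s => dil (d s) g) t.1))) =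
        (x t : ℚ) • (toQ (Lv W t.2) * Hm (fun s => ((l : ℚ) ^ L) • dil (d s) g) t.1) := by
      rw [Hm_smul, h1, smul_comm, mul_smul_comm]
    rw [h2]
    exact Cg_smul _ (Cg_mul (Cg_refl _ _) (Cg_Hm c1 t.1))
  have z1 : ∀ n < m * l ^ L, coeff n (Ah (fun s => tr1 l g (d s) L m) J W x) = 0 := by
    intro n hn
    rw [c2 n hn, PowerSeries.coeff_smul, hz n (lt_of_lt_of_le hn hM), smul_zero]
  have hPI : ∀ s, PI l (tr1 l g (d s) L m) := fun s => PI_tr1 hg (d s) (hd s) L m hm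
  have e1 : redQ l (Ah (fun s => tr1 l g (d s) L m) J W x) =
      ∑ t ∈ Ix r J W, ((x t : ℤ) : ZMod l) • (redZ l (Lv W t.2) *
        Hm (fun s => redQ l (tr1 l g (d s) L m)) t.1) := by
    unfold Ah
    rw [kredQ_sum _ _ fun t _ => PI_smul (pi_int _) (PI_mul (PI_toQ _) (PI_Hm hPI t.1).1)]
    refine Finset.sum_congr rfl fun t _ => ?_
    rw [kredQ_smul (pi_int _) (PI_mul (PI_toQ _) (PI_Hm hPI t.1).1), Rat.cast_intCast,
      kredQ_mul (PI_toQ _) (PI_Hm hPI t.1).1, kredQ_toQ, (PI_Hm hPI t.1).2]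
  have z2 : ∀ n < m * l ^ L, coeff n (∑ t ∈ Ix r J W, ((x t : ℤ) : ZMod l) • (redZ l (Lv W t.2) *
        Hm (fun s => redQ l (tr1 l g (d s) L m)) t.1)) = 0 := by
    intro n hn
    rw [← e1]
    simp only [redQ, coeff_mk]
    rw [z1 n hn, Rat.cast_zero]
  -- the second form
  obtain ⟨R, hR⟩ : ∃ R : ℕ → PowerSeries (ZMod l), ∀ i, R i = ∑ al ∈ Finset.piAntidiag univ J,
      (((x (al, i) : ℤ) : ZMod l) * (u : ZMod l) ^ J) • Hm (fun s => redQ l (tr2 g (d s) m)) al :=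
    ⟨fun i => ∑ al ∈ Finset.piAntidiag univ J,
      (((x (al, i) : ℤ) : ZMod l) * (u : ZMod l) ^ J) • Hm (fun s => redQ l (tr2 g (d s) m)) al,
      fun _ => rfl⟩
  have c3 : Cg (m * l ^ L) (∑ t ∈ Ix r J W, ((x t : ℤ) : ZMod l) • (redZ l (Lv W t.2) *
        Hm (fun s => redQ l (tr1 l g (d s) L m)) t.1))
      (∑ i ∈ range (W + 1), redZ l (Lv W i) * expand (l ^ L) hQ (R i)) := by
    have e2 : ∑ i ∈ range (W + 1), redZ l (Lv W i) * expand (l ^ L) hQ (R i) =
        ∑ t ∈ Ix r J W, ((x t : ℤ) : ZMod l) • (redZ l (Lv W t.2) *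
          Hm (fun s => (u : ZMod l) • expand (l ^ L) hQ (redQ l (tr2 g (d s) m))) t.1) := by
      unfold Ix
      rw [Finset.sum_product_right]
      refine Finset.sum_congr rfl fun i _ => ?_
      rw [hR i, map_sum, Finset.mul_sum]
      refine Finset.sum_congr rfl fun al hal => ?_
      have h1 : ∑ s, al s = J := (Finset.mem_piAntidiag.1 hal).1
      simp only
      rw [Hm_smul, expand_Hm, h1, expand_smul, mul_smul_comm, mul_smul_comm, smul_smul]
    rw [e2]
    refine Cg_sum _ fun t _ => Cg_smul _ (Cg_mul (Cg_refl _ _) (Cg_Hm (fun s => ?_) t.1))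
    exact Cg_tr hg (d s) (hd s) L m hm u hu hQ
  have z3 := ech (l ^ L) hQ W m hWQ (fun i => redZ l (Lv W i)) R
    (fun i _ => (coeff_Lv_mod (Int.castRingHom (ZMod l)) W i).1)
    (fun i _ => (coeff_Lv_mod (Int.castRingHom (ZMod l)) W i).2)
    (fun n hn => by
      rw [← c3 n hn]
      exact z2 n hn)
  obtain ⟨t, ht, hxt⟩ := hx
  have ht' := ht
  unfold Ix at ht'
  obtain ⟨ht1, ht2⟩ := Finset.mem_product.1 ht'
  have hi : t.2 ≤ W := by
    have := Finset.mem_range.1 ht2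
    omega
  have hPI2 : ∀ s, PI l (tr2 g (d s) m) := fun s => PI_tr2 hg (d s) (hd s) m hm
  have c4 : ∀ s, Cg m (tr2 g (d s) m) (dil (d s) g) := by
    intro s n hn
    unfold tr2
    rw [coeff_mk, if_pos hn]
  have h1 := hI (fun al => ((x (al, t.2) : ℤ) : ZMod l) * (u : ZMod l) ^ J) (by
    intro n hn
    have h2 := z3 t.2 hi n hn
    rw [hR, map_sum] at h2
    rw [← h2]
    refine Finset.sum_congr rfl fun al _ => ?_
    rw [PowerSeries.coeff_smul, smul_eq_mul, ← (PI_Hm hPI2 al).2]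
    simp only [redQ, coeff_mk]
    rw [Cg_Hm c4 al n hn]) t.1 ht1
  have hu1 : ((u : ℤ) : ZMod l) ≠ 0 := by
    intro h
    exact hu0 ((ZMod.intCast_zmod_eq_zero_iff_dvd u l).1 h)
  rcases mul_eq_zero.1 h1 with h | h
  · exact hxt ((ZMod.intCast_zmod_eq_zero_iff_dvd _ l).1 h)
  · exact pow_ne_zero J hu1 h

end H80V
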